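import Pool.Agent.CycShift.Orders

/-!
# Encoding realised boxes by orders on smaller sets
-/

set_option autoImplicit false
set_option linter.unusedSectionVars false

namespace Pool.Agent.CycShift

open Finset

open scoped Classical

variable {ι : Type} [Fintype ι]

/-- the `a`-th smallest element of `G i` (when `G i` has `B` elements and `a < B`) -/
noncomputable def el (B : ℕ) (G : ι → Finset ℕ) (i : ι) (a : ℕ) : ℕ :=
  if h : (G i).card = B ∧ a < B then (G i).orderEmbOfFin h.1 ⟨a, h.2⟩ else 0

theorem el_mem {B : ℕ} {G : ι → Finset ℕ} {i : ι} {a : ℕ} (h : (G i).card = B) (ha : a < B) :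
    el B G i a ∈ G i := by
  unfold el
  rw [dif_pos ⟨h, ha⟩]
  exact orderEmbOfFin_mem _ _ _

theorem el_lt {B : ℕ} {G : ι → Finset ℕ} {i : ι} {a b : ℕ} (h : (G i).card = B) (hb : b < B)
    (hab : a < b) : el B G i a < el B G i b := by
  unfold el
  rw [dif_pos ⟨h, hab.trans hb⟩, dif_pos ⟨h, hb⟩]
  exact ((G i).orderEmbOfFin h).strictMono (Fin.mk_lt_mk.2 hab)

theorem el_le {B : ℕ} {G : ι → Finset ℕ} {i : ι} {a b : ℕ} (h : (G i).card = B) (hb : b < B)
    (hab : a ≤ b) : el B G i a ≤ el B G i b := by
  rcases eq_or_lt_of_le hab with rfl | hlt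
  · exact le_refl _
  · exact (el_lt h hb hlt).le

theorem el_surj {B : ℕ} {G : ι → Finset ℕ} {i : ι} (h : (G i).card = B) {t : ℕ} (ht : t ∈ G i) :
    ∃ a < B, el B G i a = t := by
  have h1 := range_orderEmbOfFin (G i) h
  have h2 : t ∈ Set.range ((G i).orderEmbOfFin h) := by rw [h1]; exact ht
  obtain ⟨⟨a, ha⟩, hat⟩ := h2
  refine ⟨a, ha, ?_⟩
  unfold el
  rw [dif_pos ⟨h, ha⟩]
  exact hat

/-- letters whose `a`-th element starts a new block -/
noncomputable def Jset (J : Finset ι) (B s : ℕ) (G : ι → Finset ℕ) (a : ℕ) : Finset ι :=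
  (supp J G).filter (fun i => a = 0 ∨ el B G i (a - 1) / s ≠ el B G i a / s)

theorem supp_card_eq {P : Finset (ι → ℕ)} {J : Finset ι} {B m : ℕ} {G : ι → Finset ℕ}
    (hG : G ∈ RealSet (Rks P J) J B m) {i : ι} (hi : i ∈ supp J G) : (G i).card = B := by
  obtain ⟨q1, q2, q3, q4⟩ := mem_RealSet.1 hG
  rcases q3 i with h | h
  · have := (mem_filter.1 hi).2
    rw [h] at this
    exact absurd this not_nonempty_empty
  · exact h

/-- the total number of letters in the sets `Jset` is at most the number of ones of the
contracted matrix -/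
theorem sum_Jset_le {P : Finset (ι → ℕ)} {J : Finset ι} {B m s : ℕ} {G : ι → Finset ℕ}
    (hG : G ∈ RealSet (Rks P J) J B m) :
    ∑ a ∈ range B, (Jset J B s G a).card ≤
      ∑ i ∈ supp J G, ((G i).image (fun r => r / s)).card := by
  have h1 : ∑ a ∈ range B, (Jset J B s G a).card = ∑ i ∈ supp J G,
      ((range B).filter (fun a => a = 0 ∨ el B G i (a - 1) / s ≠ el B G i a / s)).card := by
    unfold Jset
    simp_rw [card_filter]
    rw [sum_comm]
  rw [h1]
  apply sum_le_sum
  intro i hi
  have hcard := supp_card_eq hG hi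
  refine card_le_card_of_injOn (fun a => el B G i a / s) ?_ ?_
  · intro a ha
    rw [mem_coe, mem_filter, mem_range] at ha
    exact mem_coe.2 (mem_image_of_mem _ (el_mem hcard ha.1))
  · have key : ∀ a b : ℕ, b < B → (b = 0 ∨ el B G i (b - 1) / s ≠ el B G i b / s) → a < b →
        el B G i a / s ≠ el B G i b / s := by
      intro a b hb hnew hab heq
      have h2 : el B G i (b - 1) / s ≠ el B G i b / s := by
        rcases hnew with h | h
        · omega
        · exact h
      have h3 : el B G i a / s ≤ el B G i (b - 1) / s :=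
        Nat.div_le_div_right (el_le hcard (by omega) (by omega))
      have h4 : el B G i (b - 1) / s ≤ el B G i b / s :=
        Nat.div_le_div_right (el_le hcard hb (by omega))
      omega
    intro a ha b hb heq
    rw [mem_coe, mem_filter, mem_range] at ha hb
    by_contra hne
    rcases lt_or_gt_of_ne hne with h | h
    · exact key a b hb.1 hb.2 h heq
    · exact key b a ha.1 ha.2 h heq.symm

/-- uniqueness of order preserving enumerations -/
theorem unique_enum (T : Finset ι) (u v : ι → ℕ)
    (hord : ∀ i ∈ T, ∀ j ∈ T, u i < u j ↔ v i < v j) (him : T.image u = T.image v) :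
    ∀ (n : ℕ), ∀ i ∈ T, u i = n → v i = n := by
  intro n
  induction n using Nat.strong_induction_on with
  | _ n ih =>
    intro i hi hun
    by_contra hne
    rcases lt_or_gt_of_ne hne with hlt | hlt
    · -- v i < n = u i
      have h1 : v i ∈ T.image u := by rw [him]; exact mem_image_of_mem _ hi
      obtain ⟨j, hj, hje⟩ := mem_image.1 h1
      have h2 : u j < n := by omega
      have h3 := ih (u j) h2 j hj rfl
      have h4 := (hord j hj i hi).1 (by omega)
      omega
    · -- u i = n < v i
      have h1 : u i ∈ T.image v := by rw [← him]; exact mem_image_of_mem _ hi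
      obtain ⟨j, hj, hje⟩ := mem_image.1 h1
      have h2 : v j < v i := by omega
      have h3 := (hord j hj i hi).2 h2
      have h4 := ih (u j) (by omega) j hj rfl
      omega

/-- a member of the family realising the `a`-th elements -/
theorem exists_rep {P : Finset (ι → ℕ)} {J : Finset ι} {B m : ℕ} {G : ι → Finset ℕ}
    (hG : G ∈ RealSet (Rks P J) J B m) {a : ℕ} (ha : a < B) :
    ∃ f ∈ P, ∀ i ∈ supp J G, rk J f i = el B G i a :=
  realized hG (fun i => el B G i a) (fun i hi => el_mem (supp_card_eq hG hi) ha)

/-- a chosen member -/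
noncomputable def rep (P : Finset (ι → ℕ)) (J : Finset ι) (B : ℕ) (G : ι → Finset ℕ) (a : ℕ) :
    ι → ℕ :=
  if h : ∃ f ∈ P, ∀ i ∈ supp J G, rk J f i = el B G i a then h.choose else fun _ => 0

theorem rep_spec {P : Finset (ι → ℕ)} {J : Finset ι} {B m : ℕ} {G : ι → Finset ℕ}
    (hG : G ∈ RealSet (Rks P J) J B m) {a : ℕ} (ha : a < B) :
    rep P J B G a ∈ P ∧ ∀ i ∈ supp J G, rk J (rep P J B G a) i = el B G i a := by
  have h := exists_rep hG ha
  unfold rep
  rw [dif_pos h]
  exact h.choose_spec

/-- offsets -/
noncomputable def off (J : Finset ι) (B s : ℕ) (G : ι → Finset ℕ) (a : ℕ) : ι → ℕ :=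
  fun i => if i ∈ J then el B G i a % s else 0

/-- the code of a box -/
noncomputable def code (P : Finset (ι → ℕ)) (J : Finset ι) (B s : ℕ) (G : ι → Finset ℕ) :
    Σ _ : Fin B → Finset ι, Fin B → (Finset (ι × ι) × Finset ℕ × (ι → ℕ)) :=
  ⟨fun a => Jset J B s G a, fun a => (ord (Jset J B s G a) (rep P J B G a),
    (Jset J B s G a).image (fun i => el B G i a), off J B s G a)⟩

theorem code_inj {P : Finset (ι → ℕ)} {J : Finset ι} {B m s : ℕ} (hB : 1 ≤ B)
    {G G' : ι → Finset ℕ} (hG : G ∈ RealSet (Rks P J) J B m)
    (hG' : G' ∈ RealSet (Rks P J) J B m) (h : code P J B s G = code P J B s G') : G = G' := by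
  unfold code at h
  rw [Sigma.mk.injEq] at h
  obtain ⟨h1, h2⟩ := h
  have h2' := eq_of_heq h2
  have hJ : ∀ a < B, Jset J B s G a = Jset J B s G' a := fun a ha => congrFun h1 ⟨a, ha⟩
  have hc : ∀ a < B, ord (Jset J B s G a) (rep P J B G a) = ord (Jset J B s G' a) (rep P J B G' a) ∧
      (Jset J B s G a).image (fun i => el B G i a) = (Jset J B s G' a).image (fun i => el B G' i a)
      ∧ off J B s G a = off J B s G' a := by
    intro a ha
    have := congrFun h2' ⟨a, ha⟩
    rw [Prod.mk.injEq, Prod.mk.injEq] at this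
    exact this
  have hsub : ∀ (K : ι → Finset ℕ) a, Jset J B s K a ⊆ supp J K := fun K a => filter_subset _ _
  have hsupp0 : ∀ K : ι → Finset ℕ, Jset J B s K 0 = supp J K := by
    intro K
    unfold Jset
    rw [filter_true_of_mem]
    intro i _
    exact Or.inl rfl
  have hsupp : supp J G = supp J G' := by
    rw [← hsupp0 G, ← hsupp0 G']
    exact hJ 0 (by omega)
  have hel : ∀ a < B, ∀ i ∈ supp J G, el B G i a = el B G' i a := by
    intro a
    induction a with
    | zero =>
      intro ha i hi
      obtain ⟨e1, e2, e3⟩ := hc 0 ha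
      rw [hsupp0, hsupp0, ← hsupp] at e1 e2
      have := unique_enum (supp J G) (fun i => el B G i 0) (fun i => el B G' i 0) (by
        intro i hi j hj
        show el B G i 0 < el B G j 0 ↔ el B G' i 0 < el B G' j 0
        have s1 := rep_spec hG ha
        have s2 := rep_spec hG' ha
        have hiJ : i ∈ J := (mem_filter.1 hi).1
        have hjJ : j ∈ J := (mem_filter.1 hj).1
        rw [← s1.2 i hi, ← s1.2 j hj, ← s2.2 i (hsupp ▸ hi), ← s2.2 j (hsupp ▸ hj),
          rk_iff hiJ hjJ, rk_iff hiJ hjJ]
        have e4 : (i, j) ∈ ord (supp J G) (rep P J B G 0) ↔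
            (i, j) ∈ ord (supp J G) (rep P J B G' 0) := by rw [e1]
        rw [mem_ord, mem_ord] at e4
        constructor
        · intro hlt
          exact (e4.1 ⟨hi, hj, hlt⟩).2.2
        · intro hlt
          exact (e4.2 ⟨hi, hj, hlt⟩).2.2) e2 (el B G i 0) i hi rfl
      exact this.symm
    | succ a ih =>
      intro ha i hi
      obtain ⟨e1, e2, e3⟩ := hc (a + 1) ha
      have hJa := hJ (a + 1) ha
      by_cases hiJ : i ∈ Jset J B s G (a + 1)
      · rw [← hJa] at e1 e2
        have := unique_enum (Jset J B s G (a + 1)) (fun i => el B G i (a + 1))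
          (fun i => el B G' i (a + 1)) (by
          intro i hi j hj
          show el B G i (a + 1) < el B G j (a + 1) ↔ el B G' i (a + 1) < el B G' j (a + 1)
          have s1 := rep_spec hG ha
          have s2 := rep_spec hG' ha
          have hi' := hsub G (a + 1) hi
          have hj' := hsub G (a + 1) hj
          have hiJ : i ∈ J := (mem_filter.1 hi').1
          have hjJ : j ∈ J := (mem_filter.1 hj').1
          rw [← s1.2 i hi', ← s1.2 j hj', ← s2.2 i (hsupp ▸ hi'), ← s2.2 j (hsupp ▸ hj'),
            rk_iff hiJ hjJ, rk_iff hiJ hjJ]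
          have e4 : (i, j) ∈ ord (Jset J B s G (a + 1)) (rep P J B G (a + 1)) ↔
              (i, j) ∈ ord (Jset J B s G (a + 1)) (rep P J B G' (a + 1)) := by rw [e1]
          rw [mem_ord, mem_ord] at e4
          constructor
          · intro hlt
            exact (e4.1 ⟨hi, hj, hlt⟩).2.2
          · intro hlt
            exact (e4.2 ⟨hi, hj, hlt⟩).2.2) e2 (el B G i (a + 1)) i hiJ rfl
        exact this.symm
      · have hiJ' : i ∉ Jset J B s G' (a + 1) := by rw [← hJa]; exact hiJ
        unfold Jset at hiJ hiJ'
        rw [mem_filter, not_and, not_or, not_not] at hiJ hiJ'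
        have f1 := (hiJ hi).2
        have f2 := (hiJ' (hsupp ▸ hi)).2
        rw [Nat.add_sub_cancel] at f1 f2
        rw [ih (by omega) i hi] at f1
        have f3 := congrFun e3 i
        unfold off at f3
        have hiJ0 : i ∈ J := (mem_filter.1 hi).1
        rw [if_pos hiJ0, if_pos hiJ0] at f3
        have f4 : el B G i (a + 1) / s = el B G' i (a + 1) / s := f1.symm.trans f2
        rw [← Nat.div_add_mod (el B G i (a + 1)) s, ← Nat.div_add_mod (el B G' i (a + 1)) s, f3, f4]
  funext i
  by_cases hi : i ∈ supp J G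
  · have c1 := supp_card_eq hG hi
    have c2 := supp_card_eq hG' (hsupp ▸ hi)
    ext t
    constructor
    · intro ht
      obtain ⟨a, ha, rfl⟩ := el_surj c1 ht
      rw [hel a ha i hi]
      exact el_mem c2 ha
    · intro ht
      obtain ⟨a, ha, rfl⟩ := el_surj c2 ht
      rw [← hel a ha i hi]
      exact el_mem c1 ha
  · have hi' : i ∉ supp J G' := by rw [← hsupp]; exact hi
    have emp : ∀ K : ι → Finset ℕ, K ∈ RealSet (Rks P J) J B m → i ∉ supp J K → K i = ∅ := by
      intro K hK hiK
      obtain ⟨q1, q2, q3, q4⟩ := mem_RealSet.1 hK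
      by_cases hiJ : i ∈ J
      · by_contra hne
        exact hiK (mem_filter.2 ⟨hiJ, nonempty_iff_ne_empty.2 hne⟩)
      · exact q2 i hiJ
    rw [emp G hG hi, emp G' hG' hi']

/-- the finite set of possible codes -/
noncomputable def Codes (P : Finset (ι → ℕ)) (J : Finset ι) (B s : ℕ) :
    Finset (Σ _ : Fin B → Finset ι, Fin B → (Finset (ι × ι) × Finset ℕ × (ι → ℕ))) :=
  ((Fintype.piFinset (fun _ : Fin B => J.powerset)).filter
    (fun Js => 2 * ∑ a, (Js a).card ≤ J.card)).sigma
    (fun Js => Fintype.piFinset (fun a : Fin B => (Ords P (Js a)) ×ˢ (range J.card).powerset ×ˢ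
      (Fintype.piFinset (fun i : ι => if i ∈ J then range s else {0}))))

theorem code_mem {P : Finset (ι → ℕ)} {J : Finset ι} {B s : ℕ} (hs : 1 ≤ s)
    {G : ι → Finset ℕ} (hG : G ∈ RealSet (Rks P J) J B J.card)
    (hsum : 2 * ∑ a ∈ range B, (Jset J B s G a).card ≤ J.card) :
    code P J B s G ∈ Codes P J B s := by
  unfold code Codes
  rw [mem_sigma]
  refine ⟨?_, ?_⟩
  · rw [mem_filter, Fintype.mem_piFinset]
    refine ⟨?_, ?_⟩
    · intro a
      rw [mem_powerset]
      exact (filter_subset _ _).trans (filter_subset _ _)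
    · show 2 * ∑ a : Fin B, (Jset J B s G a).card ≤ J.card
      rw [Fin.sum_univ_eq_sum_range (fun a => (Jset J B s G a).card) B]
      exact hsum
  · rw [Fintype.mem_piFinset]
    intro a
    show (ord (Jset J B s G a) (rep P J B G a), (Jset J B s G a).image (fun i => el B G i a),
      off J B s G a) ∈ (Ords P (Jset J B s G a)) ×ˢ (range J.card).powerset ×ˢ
      (Fintype.piFinset (fun i : ι => if i ∈ J then range s else {0}))
    rw [mem_product, mem_product]
    refine ⟨?_, ?_, ?_⟩
    · exact mem_image_of_mem _ (rep_spec hG a.isLt).1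
    · rw [mem_powerset]
      intro t ht
      obtain ⟨i, hi, rfl⟩ := mem_image.1 ht
      have hi' : i ∈ supp J G := (mem_filter.1 hi).1
      exact (mem_RealSet.1 hG).1 i (mem_filter.1 hi').1 (el_mem (supp_card_eq hG hi') a.isLt)
    · rw [Fintype.mem_piFinset]
      intro i
      show off J B s G a i ∈ (if i ∈ J then range s else {0})
      unfold off
      by_cases hi : i ∈ J
      · rw [if_pos hi, if_pos hi, mem_range]
        exact Nat.mod_lt _ (by omega)
      · rw [if_neg hi, if_neg hi]
        exact mem_singleton_self _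

theorem Codes_card {P : Finset (ι → ℕ)} {J : Finset ι} {B s K : ℕ} (hK : 1 ≤ K)
    (ih : ∀ J' : Finset ι, J'.card < J.card → (Ords P J').card ≤ K ^ (2 * J'.card))
    (hJ : 1 ≤ J.card) :
    (Codes P J B s).card ≤ (2 ^ J.card) ^ B * (K ^ J.card * (2 ^ J.card * s ^ J.card) ^ B) := by
  unfold Codes
  rw [card_sigma]
  have hoffs : (Fintype.piFinset (fun i : ι => if i ∈ J then range s else {0})).card =
      s ^ J.card := by
    rw [Fintype.card_piFinset]
    have : ∀ i : ι, (if i ∈ J then range s else {0}).card = if i ∈ J then s else 1 := by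
      intro i
      split_ifs
      · exact card_range s
      · exact card_singleton _
    rw [prod_congr rfl (fun i _ => this i), prod_ite]
    simp
  have hterm : ∀ Js ∈ ((Fintype.piFinset (fun _ : Fin B => J.powerset)).filter
      (fun Js => 2 * ∑ a, (Js a).card ≤ J.card)),
      (Fintype.piFinset (fun a : Fin B => (Ords P (Js a)) ×ˢ (range J.card).powerset ×ˢ
        (Fintype.piFinset (fun i : ι => if i ∈ J then range s else {0})))).card ≤
      K ^ J.card * (2 ^ J.card * s ^ J.card) ^ B := by
    intro Js hJs
    rw [mem_filter, Fintype.mem_piFinset] at hJs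
    obtain ⟨_, hsum⟩ := hJs
    rw [Fintype.card_piFinset]
    have h1 : ∀ a : Fin B, ((Ords P (Js a)) ×ˢ (range J.card).powerset ×ˢ
        (Fintype.piFinset (fun i : ι => if i ∈ J then range s else {0}))).card ≤
        K ^ (2 * (Js a).card) * (2 ^ J.card * s ^ J.card) := by
      intro a
      rw [card_product, card_product, hoffs, card_powerset, card_range]
      apply Nat.mul_le_mul_right
      apply ih
      have : (Js a).card ≤ ∑ b, (Js b).card :=
        single_le_sum (f := fun b => (Js b).card) (fun _ _ => Nat.zero_le _) (mem_univ a)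
      omega
    calc ∏ a : Fin B, _ ≤ ∏ a : Fin B, (K ^ (2 * (Js a).card) * (2 ^ J.card * s ^ J.card)) :=
          prod_le_prod' (fun a _ => h1 a)
      _ = K ^ (2 * ∑ a, (Js a).card) * (2 ^ J.card * s ^ J.card) ^ B := by
          rw [prod_mul_distrib, prod_const, card_univ, Fintype.card_fin, prod_pow_eq_pow_sum,
            mul_sum]
      _ ≤ K ^ J.card * (2 ^ J.card * s ^ J.card) ^ B := by
          apply Nat.mul_le_mul_right
          exact Nat.pow_le_pow_right hK hsum
  refine (sum_le_sum hterm).trans ?_
  rw [sum_const, smul_eq_mul]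
  apply Nat.mul_le_mul_right
  refine (card_filter_le _ _).trans ?_
  rw [Fintype.card_piFinset, prod_const, card_powerset, card_univ, Fintype.card_fin]

/-- **Exponential bound** for families of orders without an N-shape on `k + 1` letters. -/
theorem Ords_bound {ι : Type} [Fintype ι] [LinearOrder ι] {P : Finset (ι → ℕ)}
    (hP : ∀ f ∈ P, Function.Injective f) (k : ℕ) (hS : ¬ Shape P (k + 1)) :
    ∀ (n : ℕ) (J : Finset ι), J.card = n →
      (Ords P J).card ≤ (8 * cc k * 2 ^ (8 * cc k) * (2 * (8 * cc k)) ^ (8 * cc k)) ^ (2 * n) := by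
  set c := cc k with hc
  have hc2 : 2 ≤ c := cc_ge k
  set B := 8 * c with hB
  set K := B * 2 ^ B * (2 * B) ^ B with hK
  have hK1 : 1 ≤ K := Nat.one_le_iff_ne_zero.2 (by positivity)
  intro n
  induction n using Nat.strong_induction_on with
  | _ n ih =>
    intro J hJ
    by_cases hn : n < 4 * c
    · refine (Ords_trivial P J).trans ?_
      rw [hJ]
      have h1 : 2 ^ B ≤ K := by
        rw [hK]
        calc 2 ^ B = 1 * 2 ^ B * 1 := by ring
          _ ≤ B * 2 ^ B * (2 * B) ^ B :=
            Nat.mul_le_mul (Nat.mul_le_mul_right _ (by omega)) (Nat.one_le_iff_ne_zero.2 (by positivity))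
      calc 2 ^ (n * n) ≤ 2 ^ (B * (2 * n)) := by
            apply Nat.pow_le_pow_right (by norm_num)
            nlinarith
        _ = (2 ^ B) ^ (2 * n) := by rw [pow_mul]
        _ ≤ K ^ (2 * n) := Nat.pow_le_pow_left h1 _
    · have h1 := Ords_le_boxes P J (B := B) (by omega)
      have hinj : (RealSet (Rks P J) J B J.card).card ≤ (Codes P J B B).card := by
        refine card_le_card_of_injOn (code P J B B) ?_ ?_
        · intro G hG
          rw [mem_coe] at hG ⊢
          apply code_mem (by omega) hG
          -- the number of ones of the contracted matrix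
          have h2 := sum_Jset_le (s := B) hG
          have hcopy : ¬ Copy (supp J G) (fun i => (G i).image (fun r => r / B)) (k + 1) :=
            fun h => hS (shape_of_copy hG h)
          have h3 := linear k (supp J G) (fun i => (G i).image (fun r => r / B)) (n / B + 1) (by
            intro i hi r hr
            obtain ⟨t, ht, rfl⟩ := mem_image.1 hr
            have := (mem_RealSet.1 hG).1 i (mem_filter.1 hi).1 ht
            rw [mem_range, hJ] at this
            have h4 : t / B ≤ n / B := Nat.div_le_div_right this.le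
            omega) hcopy
          have h4 := supp_card hP hG
          rw [hJ] at h4
          have h5 : (supp J G).card ≤ n / B := by
            rw [Nat.le_div_iff_mul_le (by omega)]
            exact h4
          rw [← hc] at h3
          have h6 : c * (n / B + 1 + (supp J G).card) ≤ c * (2 * (n / B) + 1) :=
            Nat.mul_le_mul_left _ (by omega)
          have h7 : B * (n / B) ≤ n := Nat.mul_div_le n B
          have h8 : 2 * (c * (2 * (n / B) + 1)) ≤ n := by
            have h9 : 8 * (c * (n / B)) ≤ n := by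
              calc 8 * (c * (n / B)) = B * (n / B) := by
                    simp only [hB]
                    ring
                _ ≤ n := h7
            have h10 : 2 * (c * (2 * (n / B) + 1)) = 4 * (c * (n / B)) + 2 * c := by ring
            rw [h10]
            omega
          rw [hJ]
          omega
        · intro G hG G' hG' h
          exact code_inj (by omega) (mem_coe.1 hG) (mem_coe.1 hG') h
      have h2 := Codes_card (P := P) (J := J) (B := B) (s := B) (K := K) hK1 (by
        intro J' hJ'
        rw [hJ] at hJ'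
        exact ih J'.card hJ' J' rfl) (by omega)
      rw [hJ] at h1 h2 hinj
      calc (Ords P J).card ≤ (B - 1) ^ n * (RealSet (Rks P J) J B n).card := h1
        _ ≤ B ^ n * ((2 ^ n) ^ B * (K ^ n * (2 ^ n * B ^ n) ^ B)) :=
            Nat.mul_le_mul (Nat.pow_le_pow_left (by omega) _) (hinj.trans h2)
        _ = (B * 2 ^ B * (2 * B) ^ B) ^ n * K ^ n := by
            rw [← mul_pow 2 B n, ← pow_mul, ← pow_mul, mul_comm n B, pow_mul, pow_mul, mul_pow,
              mul_pow]
            ring
        _ = K ^ (2 * n) := by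
            rw [← hK, two_mul, pow_add]

end Pool.Agent.CycShift
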