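import Pool.Agent.CycShift.Encode

set_option autoImplicit false

/-!
# From the shape bound to permutations

`mono_sub` is a small Erdos-Szekeres lemma, `hit_inc` and `hit_dec` find a permutation with a given
pattern from a family of shape N, and `card_perm_le` compares a set of permutations with its set
of orders.
-/

namespace Pool.Agent.CycShift

open Finset

/-- A long injective sequence has a long increasing or a long decreasing subsequence. -/
theorem mono_sub {ι : Type} [LinearOrder ι] (x : ℕ → ι) :
    ∀ (s a b : ℕ), a + b = s → ∀ T : Finset ℕ, Set.InjOn x T → 2 ^ s ≤ T.card →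
      (∃ U ⊆ T, U.card = a ∧ StrictMonoOn x U) ∨ (∃ U ⊆ T, U.card = b ∧ StrictAntiOn x U) := by
  intro s
  induction s with
  | zero =>
    intro a b hab T _ _
    refine Or.inl ⟨∅, empty_subset _, ?_, ?_⟩
    · rw [card_empty]; omega
    · intro i hi
      simp at hi
  | succ s ih =>
    intro a b hab T hinj hT
    by_cases ha : a = 0
    · refine Or.inl ⟨∅, empty_subset _, ?_, ?_⟩
      · rw [card_empty]; omega
      · intro i hi
        simp at hi
    by_cases hb : b = 0
    · refine Or.inr ⟨∅, empty_subset _, ?_, ?_⟩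
      · rw [card_empty]; omega
      · intro i hi
        simp at hi
    have hTne : T.Nonempty := by
      rw [← card_pos]
      exact lt_of_lt_of_le (by positivity) hT
    set v := T.min' hTne with hv
    have hvT : v ∈ T := min'_mem T hTne
    have hlt : ∀ j ∈ T.erase v, v < j := by
      intro j hj
      rw [mem_erase] at hj
      exact lt_of_le_of_ne (min'_le T j hj.2) (fun h => hj.1 h.symm)
    set A := (T.erase v).filter (fun j => x v < x j) with hA
    set D := (T.erase v).filter (fun j => ¬ x v < x j) with hD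
    have hcard : A.card + D.card = (T.erase v).card := card_filter_add_card_filter_not _
    rw [card_erase_of_mem hvT] at hcard
    have hAT : A ⊆ T := (filter_subset _ _).trans (erase_subset _ _)
    have hDT : D ⊆ T := (filter_subset _ _).trans (erase_subset _ _)
    have h2 : 2 ^ (s + 1) = 2 ^ s + 2 ^ s := by ring
    have hpos : 0 < 2 ^ s := by positivity
    rcases (by omega : 2 ^ s ≤ A.card ∨ 2 ^ s ≤ D.card) with h | h
    · rcases ih (a - 1) b (by omega) A (hinj.mono (coe_subset.2 hAT)) h with
        ⟨U, hU, hUc, hUm⟩ | ⟨U, hU, hUc, hUm⟩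
      · left
        have hvU : v ∉ U := fun h => by
          have := (mem_filter.1 (hU h)).1
          rw [mem_erase] at this
          exact this.1 rfl
        refine ⟨insert v U, insert_subset hvT (hU.trans hAT), ?_, ?_⟩
        · rw [card_insert_of_notMem hvU, hUc]
          omega
        · intro i hi j hj hij
          rw [mem_coe, mem_insert] at hi hj
          rcases hi with hi | hi
          · rcases hj with hj | hj
            · exact absurd hij (by rw [hi, hj]; exact lt_irrefl _)
            · rw [hi]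
              exact (mem_filter.1 (hU hj)).2
          · rcases hj with hj | hj
            · have := hlt i (mem_filter.1 (hU hi)).1
              omega
            · exact hUm (mem_coe.2 hi) (mem_coe.2 hj) hij
      · exact Or.inr ⟨U, hU.trans hAT, hUc, hUm⟩
    · rcases ih a (b - 1) (by omega) D (hinj.mono (coe_subset.2 hDT)) h with
        ⟨U, hU, hUc, hUm⟩ | ⟨U, hU, hUc, hUm⟩
      · exact Or.inl ⟨U, hU.trans hDT, hUc, hUm⟩
      · right
        have hvU : v ∉ U := fun h => by
          have := (mem_filter.1 (hU h)).1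
          rw [mem_erase] at this
          exact this.1 rfl
        refine ⟨insert v U, insert_subset hvT (hU.trans hDT), ?_, ?_⟩
        · rw [card_insert_of_notMem hvU, hUc]
          omega
        · intro i hi j hj hij
          rw [mem_coe, mem_insert] at hi hj
          rcases hi with hi | hi
          · rcases hj with hj | hj
            · exact absurd hij (by rw [hi, hj]; exact lt_irrefl _)
            · have h1 := mem_filter.1 (hU hj)
              have h3 : x j ≠ x v := fun h => by
                have := hinj (mem_coe.2 (hDT (hU hj))) (mem_coe.2 hvT) h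
                omega
              rw [hi]
              exact lt_of_le_of_ne (not_lt.1 h1.2) h3
          · rcases hj with hj | hj
            · have := hlt i (mem_filter.1 (hU hi)).1
              omega
            · exact hUm (mem_coe.2 hi) (mem_coe.2 hj) hij

/-- The family of integer valued functions of a set of permutations. -/
noncomputable def vals {n : ℕ} (P : Finset (Equiv.Perm (Fin n))) : Finset (Fin n → ℕ) :=
  P.image (fun π i => (π i).val)

theorem vals_inj {n : ℕ} {P : Finset (Equiv.Perm (Fin n))} :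
    ∀ f ∈ vals P, Function.Injective f := by
  intro f hf
  obtain ⟨π, _, rfl⟩ := mem_image.1 hf
  intro i j hij
  exact π.injective (Fin.ext hij)

theorem perm_eq {n : ℕ} {π σ : Equiv.Perm (Fin n)} (h : ∀ i j, π i < π j → σ i < σ j) :
    π = σ := by
  have hm : StrictMono (fun i : Fin n => σ (π.symm i)) := by
    intro i j hij
    apply h
    rw [Equiv.apply_symm_apply, Equiv.apply_symm_apply]
    exact hij
  have hid : StrictMono (fun i : Fin n => i) := fun i j hij => hij
  have h1 : (fun i : Fin n => σ (π.symm i)) = (fun i : Fin n => i) := by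
    apply (hm.range_inj hid).1
    ext i
    exact ⟨fun _ => ⟨i, rfl⟩, fun _ => ⟨π (σ.symm i), by
      show σ (π.symm (π (σ.symm i))) = i
      rw [Equiv.symm_apply_apply, Equiv.apply_symm_apply]⟩⟩
  ext i
  have h2 := congrFun h1 (π i)
  simp only [Equiv.symm_apply_apply] at h2
  rw [h2]

theorem card_perm_le {n : ℕ} (P : Finset (Equiv.Perm (Fin n))) :
    P.card ≤ (Ords (vals P) univ).card := by
  refine card_le_card_of_injOn (fun π => ord univ (fun i => (π i).val)) ?_ ?_
  · intro π hπ
    exact mem_coe.2 (ord_mem_Ords (mem_image.2 ⟨π, mem_coe.1 hπ, rfl⟩))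
  · intro π _ σ _ h
    apply perm_eq
    intro i j hij
    have h' : ord univ (fun i => (π i).val) = ord univ (fun i => (σ i).val) := h
    have h1 : (i, j) ∈ ord univ (fun i => (π i).val) :=
      mem_ord.2 ⟨mem_univ _, mem_univ _, hij⟩
    rw [h'] at h1
    exact (mem_ord.1 h1).2.2

/-- what `Shape` gives for `m` chosen letters -/
theorem hit {n K m : ℕ} {P : Finset (Equiv.Perm (Fin n))} {x : ℕ → Fin n}
    (hsh : ∀ φ : ℕ → Fin 3, ∃ f ∈ vals P, ∀ i < K, ∀ j < K,
      (φ i < φ j → f (x i) < f (x j)) ∧
      (φ i = φ j → i < j → (φ i = 1 → f (x j) < f (x i)) ∧ (φ i ≠ 1 → f (x i) < f (x j))))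
    {u : Fin m → ℕ} (hu : ∀ i, u i < K) (hinj : Function.Injective u) (φ' : Fin m → Fin 3) :
    ∃ π ∈ P, ∀ i j, (φ' i < φ' j → π (x (u i)) < π (x (u j))) ∧
      (φ' i = φ' j → u i < u j → (φ' i = 1 → π (x (u j)) < π (x (u i))) ∧
        (φ' i ≠ 1 → π (x (u i)) < π (x (u j)))) := by
  classical
  obtain ⟨f, hf, hf2⟩ := hsh (fun a => if h : ∃ i, u i = a then φ' h.choose else 0)
  obtain ⟨π, hπ, rfl⟩ := mem_image.1 hf
  have hφ : ∀ i, (if h : ∃ j, u j = u i then φ' h.choose else 0) = φ' i := by
    intro i
    have h : ∃ j, u j = u i := ⟨i, rfl⟩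
    rw [dif_pos h, hinj h.choose_spec]
  refine ⟨π, hπ, fun i j => ?_⟩
  have h1 := hf2 (u i) (hu i) (u j) (hu j)
  simp only [hφ] at h1
  exact h1

/-- if a strict order is implied by the order of `d`, it is the order of `d` -/
theorem iff_of_imp {m n : ℕ} {d : Fin m → ℕ} (hd : Function.Injective d) {g : Fin m → Fin n}
    (h : ∀ i j, d i < d j → g i < g j) (i j : Fin m) : g i < g j ↔ d i < d j := by
  constructor
  · intro hg
    rcases lt_trichotomy (d i) (d j) with h1 | h1 | h1
    · exact h1
    · rw [hd h1] at hg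
      exact absurd hg (lt_irrefl _)
    · exact absurd (hg.trans (h j i h1)) (lt_irrefl _)
  · exact h i j

theorem hit_inc {n K m : ℕ} {P : Finset (Equiv.Perm (Fin n))} {x : ℕ → Fin n}
    (hsh : ∀ φ : ℕ → Fin 3, ∃ f ∈ vals P, ∀ i < K, ∀ j < K,
      (φ i < φ j → f (x i) < f (x j)) ∧
      (φ i = φ j → i < j → (φ i = 1 → f (x j) < f (x i)) ∧ (φ i ≠ 1 → f (x i) < f (x j))))
    {U : Finset ℕ} (hU : U ⊆ range K) (hmono : StrictMonoOn x U) {f : Fin m → Fin n}
    (hf : StrictMono f) (hfX : ∀ i, f i ∈ U.image x) (d : Fin m → ℕ)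
    (hd : Function.Injective d) (φ' : Fin m → Fin 3)
    (hdφ : ∀ i j, d i < d j → φ' i < φ' j ∨ (φ' i = φ' j ∧ (if φ' i = 1 then j < i else i < j))) :
    ∃ π ∈ P, ∀ i j, π (f i) < π (f j) ↔ d i < d j := by
  classical
  have h0 : ∀ i, ∃ a ∈ U, x a = f i := fun i => mem_image.1 (hfX i)
  choose u huU hux using h0
  have hum : StrictMono u := by
    intro i j hij
    have := hf hij
    rw [← hux i, ← hux j] at this
    exact (hmono.lt_iff_lt (mem_coe.2 (huU i)) (mem_coe.2 (huU j))).1 this
  obtain ⟨π, hπ, h⟩ := hit hsh (fun i => mem_range.1 (hU (huU i))) hum.injective φ'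
  refine ⟨π, hπ, iff_of_imp hd ?_⟩
  intro i j hij
  rw [← hux i, ← hux j]
  rcases hdφ i j hij with h1 | ⟨h1, h2⟩
  · exact (h i j).1 h1
  · split_ifs at h2 with h3
    · exact ((h j i).2 h1.symm (hum h2)).1 (h1 ▸ h3)
    · exact ((h i j).2 h1 (hum h2)).2 h3

theorem hit_dec {n K m : ℕ} {P : Finset (Equiv.Perm (Fin n))} {x : ℕ → Fin n}
    (hsh : ∀ φ : ℕ → Fin 3, ∃ f ∈ vals P, ∀ i < K, ∀ j < K,
      (φ i < φ j → f (x i) < f (x j)) ∧
      (φ i = φ j → i < j → (φ i = 1 → f (x j) < f (x i)) ∧ (φ i ≠ 1 → f (x i) < f (x j))))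
    {U : Finset ℕ} (hU : U ⊆ range K) (hanti : StrictAntiOn x U) {f : Fin m → Fin n}
    (hf : StrictMono f) (hfX : ∀ i, f i ∈ U.image x) (d : Fin m → ℕ)
    (hd : Function.Injective d) (φ' : Fin m → Fin 3)
    (hdφ : ∀ i j, d i < d j → φ' i < φ' j ∨ (φ' i = φ' j ∧ (if φ' i = 1 then i < j else j < i))) :
    ∃ π ∈ P, ∀ i j, π (f i) < π (f j) ↔ d i < d j := by
  classical
  have h0 : ∀ i, ∃ a ∈ U, x a = f i := fun i => mem_image.1 (hfX i)
  choose u huU hux using h0
  have hum : StrictAnti u := by
    intro i j hij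
    have := hf hij
    rw [← hux i, ← hux j] at this
    exact (hanti.lt_iff_gt (mem_coe.2 (huU i)) (mem_coe.2 (huU j))).1 this
  obtain ⟨π, hπ, h⟩ := hit hsh (fun i => mem_range.1 (hU (huU i))) hum.injective φ'
  refine ⟨π, hπ, iff_of_imp hd ?_⟩
  intro i j hij
  rw [← hux i, ← hux j]
  rcases hdφ i j hij with h1 | ⟨h1, h2⟩
  · exact (h i j).1 h1
  · split_ifs at h2 with h3
    · exact ((h j i).2 h1.symm (hum h2)).1 (h1 ▸ h3)
    · exact ((h i j).2 h1 (hum h2)).2 h3

end Pool.Agent.CycShift
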