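import Pool.Agent.CycShift.Remove

/-!
# A linear bound for matrices without an N-shaped pattern (unordered columns)
-/

set_option autoImplicit false
set_option linter.unusedSectionVars false

namespace Pool.Agent.CycShift

open Finset

open scoped Classical

variable {Λ : Type} [LinearOrder Λ]

/-- An N-shaped copy with `k` letters: rows `r 0 < r 1 < … < r' 1 < r' 0 < r'' 0 < r'' 1 < …`. -/
def Copy (S : Finset Λ) (R : Λ → Finset ℕ) (k : ℕ) : Prop :=
  ∃ (x : ℕ → Λ) (r r' r'' : ℕ → ℕ),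
    (∀ i < k, x i ∈ S ∧ r i ∈ R (x i) ∧ r' i ∈ R (x i) ∧ r'' i ∈ R (x i)) ∧
    (∀ i j, i < j → j < k → x i ≠ x j ∧ r i < r j ∧ r' j < r' i ∧ r'' i < r'' j) ∧
    (∀ i < k, ∀ j < k, r i < r' j ∧ r' i < r'' j)

/-- last row of a letter -/
def lst (R : Λ → Finset ℕ) (x : Λ) : ℕ := (R x).sup id

/-- order of the letters by their last row -/
def key (R : Λ → Finset ℕ) (x : Λ) : ℕ ×ₗ Λ := toLex (lst R x, x)

theorem key_inj {R : Λ → Finset ℕ} {x y : Λ} (h : key R x = key R y) : x = y := by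
  unfold key at h
  have := toLex.injective h
  exact (Prod.mk.inj this).2

theorem lst_le_of_key {R : Λ → Finset ℕ} {x y : Λ} (h : key R x < key R y) :
    lst R x ≤ lst R y := by
  unfold key at h
  rw [Prod.Lex.toLex_lt_toLex] at h
  rcases h with h | h
  · exact h.le
  · exact h.1.le

/-- rows of a letter without the last one -/
def Rm (R : Λ → Finset ℕ) (x : Λ) : Finset ℕ := (R x).erase (lst R x)

theorem lst_mem {R : Λ → Finset ℕ} {x : Λ} (h : (R x).Nonempty) : lst R x ∈ R x := by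
  obtain ⟨i, hi, he⟩ := exists_mem_eq_sup (R x) h id
  unfold lst
  rw [he]
  exact hi

theorem le_lst {R : Λ → Finset ℕ} {x : Λ} {t : ℕ} (h : t ∈ R x) : t ≤ lst R x :=
  le_sup (f := id) h

theorem lt_lst {R : Λ → Finset ℕ} {x : Λ} {t : ℕ} (h : t ∈ Rm R x) : t < lst R x := by
  unfold Rm at h
  rw [mem_erase] at h
  exact lt_of_le_of_ne (le_lst h.2) h.1

/-- many letters outliving `x` have two rows strictly between `a` and `b` -/
def Cnd (S : Finset Λ) (R : Λ → Finset ℕ) (k : ℕ) (x : Λ) (a b : ℕ) : Prop :=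
  k ≤ (S.filter (fun y => key R x < key R y ∧
    2 ≤ ((Rm R y).filter (fun t => a < t ∧ t < b)).card)).card

theorem Cnd_mono {S : Finset Λ} {R : Λ → Finset ℕ} {k : ℕ} {x x' : Λ} (hx : key R x ≤ key R x')
    (a a' b b' : ℕ) (h : Cnd S R k x' a b) (ha : a' ≤ a) (hb : b ≤ b') : Cnd S R k x a' b' := by
  unfold Cnd at h ⊢
  refine h.trans (card_le_card ?_)
  intro y hy
  rw [mem_filter] at hy ⊢
  refine ⟨hy.1, lt_of_le_of_lt hx hy.2.1, hy.2.2.trans (card_le_card ?_)⟩
  intro t ht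
  rw [mem_filter] at ht ⊢
  exact ⟨ht.1, by omega, by omega⟩

theorem Cnd_irr {S : Finset Λ} {R : Λ → Finset ℕ} {k : ℕ} (hk : 1 ≤ k) {x : Λ} (a : ℕ) :
    ¬ Cnd S R k x a a := by
  unfold Cnd
  have h1 : ∀ y, ((Rm R y).filter (fun t => a < t ∧ t < a)).card = 0 := by
    intro y
    rw [card_eq_zero, filter_eq_empty_iff]
    intro t _ h
    omega
  have h2 : (S.filter (fun y => key R x < key R y ∧
    2 ≤ ((Rm R y).filter (fun t => a < t ∧ t < a)).card)) = ∅ := by
    rw [filter_eq_empty_iff]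
    intro y _ h
    rw [h1 y] at h
    omega
  rw [h2, card_empty]
  omega

theorem exists_p (S : Finset Λ) (R : Λ → Finset ℕ) {k : ℕ} (hk : 1 ≤ k) :
    ∃ p : Λ → ℕ → ℕ, ∀ x,
      (∀ r ∈ Rm R x, p x r ∈ Rm R x ∧ p x r ≤ r ∧ p x (p x r) = p x r ∧
        ¬ Cnd S R k x (p x r) r) ∧
      (∀ r ∈ Rm R x, ∀ r' ∈ Rm R x, p x r < p x r' → Cnd S R k x (p x r) (p x r')) ∧
      (∀ r ∈ Rm R x, ∀ r' ∈ Rm R x, r ≤ r' → p x r ≤ p x r') := by
  have h : ∀ x, ∃ p : ℕ → ℕ,
      (∀ r ∈ Rm R x, p r ∈ Rm R x ∧ p r ≤ r ∧ p (p r) = p r ∧ ¬ Cnd S R k x (p r) r) ∧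
      (∀ r ∈ Rm R x, ∀ r' ∈ Rm R x, p r < p r' → Cnd S R k x (p r) (p r')) ∧
      (∀ r ∈ Rm R x, ∀ r' ∈ Rm R x, r ≤ r' → p r ≤ p r') := by
    intro x
    exact exists_marks (Cnd S R k x) (Cnd_mono (le_refl _)) (Cnd_irr hk) (Rm R x)
  choose p hp using h
  exact ⟨p, hp⟩

/-- the step: a copy among the marks extends -/
theorem copy_succ {S : Finset Λ} {R : Λ → Finset ℕ} {k : ℕ} (hk : 1 ≤ k) {p : Λ → ℕ → ℕ}
    (hp : ∀ x, (∀ r ∈ Rm R x, p x r ∈ Rm R x ∧ p x r ≤ r ∧ p x (p x r) = p x r ∧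
        ¬ Cnd S R k x (p x r) r) ∧
      (∀ r ∈ Rm R x, ∀ r' ∈ Rm R x, p x r < p x r' → Cnd S R k x (p x r) (p x r')) ∧
      (∀ r ∈ Rm R x, ∀ r' ∈ Rm R x, r ≤ r' → p x r ≤ p x r'))
    (h : Copy S (fun x => (Rm R x).image (p x)) k) : Copy S R (k + 1) := by
  obtain ⟨x, r, r', r'', h1, h2, h3⟩ := h
  have hmark : ∀ y t, t ∈ (Rm R y).image (p y) → t ∈ Rm R y ∧ p y t = t := by
    intro y t ht
    obtain ⟨s, hs, rfl⟩ := mem_image.1 ht
    obtain ⟨q1, q2, q3, q4⟩ := (hp y).1 s hs
    exact ⟨q1, q3⟩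
  have hRR : ∀ y t, t ∈ (Rm R y).image (p y) → t ∈ R y :=
    fun y t ht => mem_of_mem_erase (hmark y t ht).1
  have hk1 : k - 1 < k := by omega
  obtain ⟨ha, hr, hr', hr''⟩ := h1 (k - 1) hk1
  obtain ⟨hrm, hrp⟩ := hmark _ _ hr
  obtain ⟨hrm', hrp'⟩ := hmark _ _ hr'
  obtain ⟨hrm'', hrp''⟩ := hmark _ _ hr''
  have hlt : r (k - 1) < r' (k - 1) := (h3 _ hk1 _ hk1).1
  have hC := (hp (x (k - 1))).2.1 _ hrm _ hrm' (by rw [hrp, hrp']; exact hlt)
  rw [hrp, hrp'] at hC
  unfold Cnd at hC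
  -- choose the new letter
  have hex : ∃ b ∈ (S.filter (fun y => key R (x (k - 1)) < key R y ∧
      2 ≤ ((Rm R y).filter (fun t => r (k - 1) < t ∧ t < r' (k - 1))).card)),
      b ∉ (range (k - 1)).image x := by
    apply exists_mem_notMem_of_card_lt_card
    refine lt_of_le_of_lt card_image_le ?_
    rw [card_range]
    omega
  obtain ⟨b, hb1, hb2⟩ := hex
  rw [mem_filter] at hb1
  obtain ⟨hbS, hbkey, hbcard⟩ := hb1
  have hbne : ∀ i < k, x i ≠ b := by
    intro i hi heq
    by_cases hi' : i = k - 1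
    · subst hi'
      rw [heq] at hbkey
      exact lt_irrefl _ hbkey
    · apply hb2
      rw [← heq]
      exact mem_image_of_mem _ (mem_range.2 (by omega))
  -- two rows
  obtain ⟨s, hs, s', hs', hss⟩ : ∃ s ∈ ((Rm R b).filter (fun t => r (k - 1) < t ∧ t < r' (k - 1))),
      ∃ s' ∈ ((Rm R b).filter (fun t => r (k - 1) < t ∧ t < r' (k - 1))), s < s' := by
    obtain ⟨s, hs, s', hs', hne⟩ := one_lt_card.1 (lt_of_lt_of_le one_lt_two hbcard)
    rcases lt_or_gt_of_ne hne with h | h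
    · exact ⟨s, hs, s', hs', h⟩
    · exact ⟨s', hs', s, hs, h⟩
  rw [mem_filter] at hs hs'
  have hlast : r'' (k - 1) < lst R b := lt_of_lt_of_le (lt_lst hrm'') (lst_le_of_key hbkey)
  have hbR : ∀ t, t ∈ Rm R b → t ∈ R b := fun t ht => mem_of_mem_erase ht
  have hmr : ∀ i < k, r i ≤ r (k - 1) := by
    intro i hi
    by_cases hi' : i = k - 1
    · rw [hi']
    · exact (h2 i (k - 1) (by omega) hk1).2.1.le
  have hmr' : ∀ i < k, r' (k - 1) ≤ r' i := by
    intro i hi
    by_cases hi' : i = k - 1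
    · rw [hi']
    · exact (h2 i (k - 1) (by omega) hk1).2.2.1.le
  have hmr'' : ∀ i < k, r'' i ≤ r'' (k - 1) := by
    intro i hi
    by_cases hi' : i = k - 1
    · rw [hi']
    · exact (h2 i (k - 1) (by omega) hk1).2.2.2.le
  refine ⟨fun i => if i = k then b else x i, fun i => if i = k then s else r i,
    fun i => if i = k then s' else r' i, fun i => if i = k then lst R b else r'' i, ?_, ?_, ?_⟩
  · intro i hi
    by_cases hik : i = k
    · simp only [if_pos hik]
      exact ⟨hbS, hbR _ hs.1, hbR _ hs'.1, lst_mem ⟨s, hbR _ hs.1⟩⟩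
    · simp only [if_neg hik]
      obtain ⟨q1, q2, q3, q4⟩ := h1 i (by omega)
      exact ⟨q1, hRR _ _ q2, hRR _ _ q3, hRR _ _ q4⟩
  · intro i j hij hj
    have hik : i ≠ k := by omega
    simp only [if_neg hik]
    by_cases hjk : j = k
    · simp only [if_pos hjk]
      have hi : i < k := by omega
      have := hmr i hi
      have := hmr' i hi
      have := hmr'' i hi
      exact ⟨hbne i hi, by omega, by omega, by omega⟩
    · simp only [if_neg hjk]
      exact h2 i j hij (by omega)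
  · intro i hi j hj
    by_cases hik : i = k
    · simp only [if_pos hik]
      by_cases hjk : j = k
      · simp only [if_pos hjk]
        exact ⟨hss, lt_lst hs'.1⟩
      · simp only [if_neg hjk]
        have hj' : j < k := by omega
        have q1 := hmr' j hj'
        have q2 := (h3 (k - 1) hk1 j hj').2
        exact ⟨by omega, by omega⟩
    · simp only [if_neg hik]
      have hi' : i < k := by omega
      by_cases hjk : j = k
      · simp only [if_pos hjk]
        have q1 := hmr i hi'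
        have q2 := (h3 i hi' (k - 1) hk1).2
        exact ⟨by omega, by omega⟩
      · simp only [if_neg hjk]
        exact h3 i hi' j (by omega)

/-- one step of the linear bound -/
theorem linear_step {S : Finset Λ} {R : Λ → Finset ℕ} {k c m : ℕ} (hk : 1 ≤ k)
    (hm : ∀ x ∈ S, ∀ r ∈ R x, r < m)
    (ih : ∀ R' : Λ → Finset ℕ, (∀ x ∈ S, ∀ r ∈ R' x, r < m) → ¬ Copy S R' k →
      ∑ x ∈ S, (R' x).card ≤ c * (m + S.card))
    (hR : ¬ Copy S R (k + 1)) :
    ∑ x ∈ S, (R x).card ≤ (1 + (2 * k - 1) * (1 + 3 * c)) * (m + S.card) := by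
  obtain ⟨p, hp⟩ := exists_p S R hk
  have hmark : ∀ y t, t ∈ (Rm R y).image (p y) → t ∈ Rm R y ∧ p y t = t := by
    intro y t ht
    obtain ⟨s, hs, rfl⟩ := mem_image.1 ht
    obtain ⟨q1, q2, q3, q4⟩ := (hp y).1 s hs
    exact ⟨q1, q3⟩
  have hM' : ∑ x ∈ S, ((Rm R x).image (p x)).card ≤ c * (m + S.card) := by
    apply ih (fun x => (Rm R x).image (p x))
    · intro x hx r hr
      exact hm x hx r (mem_of_mem_erase (hmark x r hr).1)
    · intro h
      exact hR (copy_succ hk hp h)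
  -- the segments
  set Sg : Finset (Σ _ : Λ, ℕ) := S.sigma (fun x => (Rm R x).image (p x)) with hSg
  have hSgcard : Sg.card = ∑ x ∈ S, ((Rm R x).image (p x)).card := card_sigma _ _
  set seg : (Σ _ : Λ, ℕ) → Finset ℕ := fun v => (Rm R v.1).filter (fun r => p v.1 r = v.2)
    with hseg
  have hmemseg : ∀ v r, r ∈ seg v ↔ r ∈ Rm R v.1 ∧ p v.1 r = v.2 := by
    intro v r
    rw [hseg]
    exact mem_filter
  have hmemSg : ∀ v, v ∈ Sg ↔ v.1 ∈ S ∧ v.2 ∈ (Rm R v.1).image (p v.1) := by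
    intro v
    rw [hSg, mem_sigma]
  have ha : ∀ v ∈ Sg, v.2 ∈ seg v := by
    intro v hv
    rw [hmemseg]
    exact hmark _ _ ((hmemSg v).1 hv).2
  set bb : (Σ _ : Λ, ℕ) → ℕ := fun v => (seg v).sup id with hbb
  have hb : ∀ v ∈ Sg, bb v ∈ seg v := by
    intro v hv
    obtain ⟨i, hi, he⟩ := exists_mem_eq_sup (seg v) ⟨_, ha v hv⟩ id
    show (seg v).sup id ∈ seg v
    rw [he]
    exact hi
  have hble : ∀ v, ∀ r ∈ seg v, r ≤ bb v := fun v r hr => le_sup (f := id) hr
  have hale : ∀ v, ∀ r ∈ seg v, v.2 ≤ r := by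
    intro v r hr
    rw [hmemseg] at hr
    rw [← hr.2]
    exact ((hp v.1).1 r hr.1).2.1
  obtain ⟨arc, harc⟩ : ∃ arc : (Σ _ : Λ, ℕ) → (Σ _ : Λ, ℕ) → Prop, ∀ u v, arc u v ↔
      (key R u.1 < key R v.1 ∧ 2 ≤ ((seg v).filter (fun r => u.2 < r ∧ r < bb u)).card) :=
    ⟨fun u v => key R u.1 < key R v.1 ∧ 2 ≤ ((seg v).filter (fun r => u.2 < r ∧ r < bb u)).card,
      fun _ _ => Iff.rfl⟩
  -- thinness
  have hthin : ∀ u ∈ Sg, ¬ Cnd S R k u.1 u.2 (bb u) := by
    intro u hu
    have h1 := (hmemseg u (bb u)).1 (hb u hu)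
    have h2 := ((hp u.1).1 _ h1.1).2.2.2
    rw [h1.2] at h2
    exact h2
  have hout : ∀ u ∈ Sg, (Sg.filter (fun v => arc u v)).card ≤ 2 * (k - 1) := by
    intro u hu
    set Y := S.filter (fun y => key R u.1 < key R y ∧
      2 ≤ ((Rm R y).filter (fun t => u.2 < t ∧ t < bb u)).card) with hY
    have hYcard : Y.card ≤ k - 1 := by
      have := hthin u hu
      unfold Cnd at this
      rw [← hY] at this
      omega
    have hmaps : ∀ v ∈ Sg.filter (fun v => arc u v), v.1 ∈ Y := by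
      intro v hv
      rw [mem_filter, harc] at hv
      obtain ⟨hvS, hkey, hcard⟩ := hv
      rw [hY, mem_filter]
      refine ⟨((hmemSg v).1 hvS).1, hkey, hcard.trans (card_le_card ?_)⟩
      intro r hr
      rw [mem_filter] at hr ⊢
      exact ⟨((hmemseg v r).1 hr.1).1, hr.2⟩
    have hfib : ∀ y ∈ Y, ((Sg.filter (fun v => arc u v)).filter (fun v => v.1 = y)).card ≤ 2 := by
      intro y _
      by_contra hcon
      push Not at hcon
      set U : Finset ℕ := ((Sg.filter (fun v => arc u v)).filter (fun v => v.1 = y)).image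
        (fun v => v.2) with hU
      have hUcard : 2 < U.card := by
        rw [hU, card_image_of_injOn]
        · exact hcon
        · rintro ⟨v1, v2⟩ hv ⟨w1, w2⟩ hw hvw
          rw [mem_coe, mem_filter] at hv hw
          have e1 : v1 = y := hv.2
          have e2 : w1 = y := hw.2
          have e3 : v2 = w2 := hvw
          subst e1; subst e2; subst e3
          rfl
      have hUmem : ∀ t ∈ U, (⟨y, t⟩ : Σ _ : Λ, ℕ) ∈ Sg ∧ arc u ⟨y, t⟩ := by
        intro t ht
        rw [hU, mem_image] at ht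
        obtain ⟨⟨v1, v2⟩, hv, e3⟩ := ht
        rw [mem_filter, mem_filter] at hv
        have e1 : v1 = y := hv.2
        have e2 : v2 = t := e3
        subst e1; subst e2
        exact hv.1
      have hUne : U.Nonempty := by rw [← card_pos]; omega
      set u1 := U.min' hUne with hu1
      set u3 := U.max' hUne with hu3
      obtain ⟨u2, hu2, hu2'⟩ : ∃ u2 ∈ U, u2 ∉ ({u1, u3} : Finset ℕ) := by
        apply exists_mem_notMem_of_card_lt_card
        exact lt_of_le_of_lt card_le_two hUcard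
      rw [mem_insert, mem_singleton, not_or] at hu2'
      have h12 : u1 < u2 := lt_of_le_of_ne (min'_le _ _ hu2) (fun h => hu2'.1 h.symm)
      have h23 : u2 < u3 := lt_of_le_of_ne (le_max' _ _ hu2) hu2'.2
      obtain ⟨hS1, hA1⟩ := hUmem u1 (min'_mem _ _)
      obtain ⟨hS2, hA2⟩ := hUmem u2 hu2
      obtain ⟨hS3, hA3⟩ := hUmem u3 (max'_mem _ _)
      obtain ⟨hk1, hc1⟩ := (harc _ _).1 hA1
      obtain ⟨hk3, hc3⟩ := (harc _ _).1 hA3
      obtain ⟨r1, hr1⟩ : ((seg ⟨y, u1⟩).filter (fun r => u.2 < r ∧ r < bb u)).Nonempty := by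
        rw [← card_pos]; omega
      obtain ⟨r3, hr3⟩ : ((seg ⟨y, u3⟩).filter (fun r => u.2 < r ∧ r < bb u)).Nonempty := by
        rw [← card_pos]; omega
      rw [mem_filter, hmemseg] at hr1 hr3
      obtain ⟨⟨hr1m, hr1p⟩, hr1a, hr1b⟩ := hr1
      obtain ⟨⟨hr3m, hr3p⟩, hr3a, hr3b⟩ := hr3
      have hr1m' : r1 ∈ Rm R y := hr1m
      have hr1p' : p y r1 = u1 := hr1p
      have hr3m' : r3 ∈ Rm R y := hr3m
      have hr3p' : p y r3 = u3 := hr3p
      obtain ⟨hu2m, hu2p⟩ := hmark y u2 ((hmemSg ⟨y, u2⟩).1 hS2).2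
      obtain ⟨hu3m, hu3p⟩ := hmark y u3 ((hmemSg ⟨y, u3⟩).1 hS3).2
      have hlt : r1 < u2 := by
        by_contra hge
        have := (hp y).2.2 _ hu2m _ hr1m' (not_lt.1 hge)
        rw [hu2p, hr1p'] at this
        omega
      have hlt3 : u3 ≤ r3 := by
        have := ((hp y).1 _ hr3m').2.1
        rw [hr3p'] at this
        exact this
      have hC := (hp y).2.1 _ hu2m _ hu3m (by rw [hu2p, hu3p]; exact h23)
      rw [hu2p, hu3p] at hC
      exact hthin u hu (Cnd_mono hk1.le _ _ _ _ hC (by omega) (by omega))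
    have := card_le_mul_card_image_of_maps_to hmaps 2 hfib
    omega
  obtain ⟨col, hcol1, hcol2⟩ := coloring (fun v : (Σ _ : Λ, ℕ) => key R v.1) arc
    (fun u v h => ((harc u v).1 h).1) (2 * (k - 1)) Sg.card Sg rfl hout
  have hclass : ∀ q, ∑ v ∈ Sg.filter (fun v => col v = q), (seg v).card ≤ m + 3 * Sg.card := by
    intro q
    have h1 := remove_bound (fun v : (Σ _ : Λ, ℕ) => key R v.1)
      (Sg.filter (fun v => col v = q)).card (Sg.filter (fun v => col v = q)) seg (fun v => v.2) bb m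
      rfl (by
        intro u hu
        rw [mem_filter] at hu
        refine ⟨ha u hu.1, hb u hu.1, ?_⟩
        intro r hr
        refine ⟨hale u r hr, hble u r hr, ?_⟩
        exact hm u.1 ((hmemSg u).1 hu.1).1 r (mem_of_mem_erase ((hmemseg u r).1 hr).1))
      (by
        intro u hu v hv huv hle
        rw [mem_filter] at hu hv
        by_cases heq : u.1 = v.1
        · have hz : ((seg v).filter (fun r => u.2 < r ∧ r < bb u)) = ∅ := by
            rw [filter_eq_empty_iff]
            intro r hr hrr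
            rw [hmemseg] at hr
            obtain ⟨hrm, hrp⟩ := hr
            rw [← heq] at hrm hrp
            have h2 := (hmemseg u _).1 (hb u hu.1)
            have h3 := (hmemseg u _).1 (ha u hu.1)
            have h4 := (hp u.1).2.2 _ h3.1 _ hrm hrr.1.le
            have h5 := (hp u.1).2.2 _ hrm _ h2.1 hrr.2.le
            rw [h3.2, hrp] at h4
            rw [h2.2, hrp] at h5
            have h6 : u.2 = v.2 := le_antisymm h4 h5
            apply huv
            obtain ⟨u1, u2⟩ := u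
            obtain ⟨v1, v2⟩ := v
            have e1 : u1 = v1 := heq
            have e2 : u2 = v2 := h6
            rw [e1, e2]
          rw [hz, card_empty]
          omega
        · have hlt : key R u.1 < key R v.1 := by
            refine lt_of_le_of_ne hle ?_
            intro h
            exact heq (key_inj h)
          by_contra hcon
          push Not at hcon
          exact hcol2 u hu.1 v hv.1 ((harc u v).2 ⟨hlt, hcon⟩) (hu.2.trans hv.2.symm))
    refine h1.trans ?_
    have := card_filter_le Sg (fun v => col v = q)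
    omega
  have htot : ∑ x ∈ S, (Rm R x).card = ∑ v ∈ Sg, (seg v).card := by
    rw [hSg, sum_sigma]
    apply sum_congr rfl
    intro x _
    exact card_eq_sum_card_image (p x) (Rm R x)
  have htot2 : ∑ v ∈ Sg, (seg v).card ≤ (2 * k - 1) * (m + 3 * Sg.card) := by
    have h1 : ∑ v ∈ Sg, (seg v).card =
        ∑ q ∈ range (2 * k - 1), ∑ v ∈ Sg.filter (fun v => col v = q), (seg v).card := by
      rw [sum_fiberwise_of_maps_to]
      intro v _
      rw [mem_range]
      have := hcol1 v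
      omega
    rw [h1]
    refine (sum_le_sum (fun q _ => hclass q)).trans ?_
    rw [sum_const, card_range, smul_eq_mul]
  have herase : ∑ x ∈ S, (R x).card ≤ S.card + ∑ x ∈ S, (Rm R x).card := by
    rw [card_eq_sum_ones, ← sum_add_distrib]
    apply sum_le_sum
    intro x _
    have := pred_card_le_card_erase (s := R x) (a := lst R x)
    unfold Rm
    omega
  rw [hSgcard] at htot2
  have hfin : (2 * k - 1) * (m + 3 * ∑ x ∈ S, ((Rm R x).image (p x)).card) ≤
      (2 * k - 1) * (m + 3 * (c * (m + S.card))) := by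
    apply Nat.mul_le_mul_left
    omega
  have hfin2 : (2 * k - 1) * (m + 3 * (c * (m + S.card))) ≤
      ((2 * k - 1) * (1 + 3 * c)) * (m + S.card) := by
    rw [mul_assoc]
    apply Nat.mul_le_mul_left
    nlinarith
  nlinarith

/-- the constants of the linear bound -/
def cc : ℕ → ℕ
  | 0 => 2
  | k + 1 => 1 + (2 * (k + 1) - 1) * (1 + 3 * cc k)

theorem cc_ge (k : ℕ) : 2 ≤ cc k := by
  cases k with
  | zero => exact le_refl _
  | succ k =>
    show 2 ≤ 1 + (2 * (k + 1) - 1) * (1 + 3 * cc k)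
    have : 1 ≤ (2 * (k + 1) - 1) * (1 + 3 * cc k) :=
      Nat.one_le_iff_ne_zero.2 (Nat.mul_ne_zero (by omega) (by omega))
    omega

/-- **Linear bound** for matrices without an N-shaped copy. -/
theorem linear (k : ℕ) : ∀ (S : Finset Λ) (R : Λ → Finset ℕ) (m : ℕ),
    (∀ x ∈ S, ∀ r ∈ R x, r < m) → ¬ Copy S R (k + 1) →
    ∑ x ∈ S, (R x).card ≤ cc k * (m + S.card) := by
  induction k with
  | zero =>
    intro S R m _ hR
    have h1 : ∀ x ∈ S, (R x).card ≤ 2 := by
      intro x hx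
      by_contra hcon
      push Not at hcon
      apply hR
      have hne : (R x).Nonempty := by rw [← card_pos]; omega
      set u1 := (R x).min' hne with hu1
      set u3 := (R x).max' hne with hu3
      obtain ⟨u2, hu2, hu2'⟩ : ∃ u2 ∈ R x, u2 ∉ ({u1, u3} : Finset ℕ) := by
        apply exists_mem_notMem_of_card_lt_card
        exact lt_of_le_of_lt card_le_two hcon
      rw [mem_insert, mem_singleton, not_or] at hu2'
      have h12 : u1 < u2 := lt_of_le_of_ne (min'_le _ _ hu2) (fun h => hu2'.1 h.symm)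
      have h23 : u2 < u3 := lt_of_le_of_ne (le_max' _ _ hu2) hu2'.2
      refine ⟨fun _ => x, fun _ => u1, fun _ => u2, fun _ => u3, ?_, ?_, ?_⟩
      · intro i _
        exact ⟨hx, min'_mem _ _, hu2, max'_mem _ _⟩
      · intro i j hij hj
        omega
      · intro i _ j _
        exact ⟨h12, h23⟩
    show ∑ x ∈ S, (R x).card ≤ 2 * (m + S.card)
    calc ∑ x ∈ S, (R x).card ≤ ∑ _x ∈ S, 2 := sum_le_sum h1
      _ = S.card * 2 := by rw [sum_const, smul_eq_mul]
      _ ≤ 2 * (m + S.card) := by omega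
  | succ k ih =>
    intro S R m hm hR
    exact linear_step (by omega) hm (fun R' hR' hcopy => ih S R' m hR' hcopy) hR

end Pool.Agent.CycShift
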