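import Mathlib

/-!
# A counting lemma in the spirit of Pajor: families of functions and fully realised boxes
-/

set_option autoImplicit false

namespace Pool.Agent.CycShift

open Finset

open scoped Classical

variable {ι : Type} [Fintype ι]

/-- restriction to `J` -/
noncomputable def res (J : Finset ι) (f : ι → ℕ) : ι → ℕ := fun i => if i ∈ J then f i else 0

/-- every choice from the nonempty `G i` extends to a member of `F` -/
def Realizes (F : Finset (ι → ℕ)) (G : ι → Finset ℕ) : Prop :=
  ∀ g : ι → ℕ, (∀ i, (G i).Nonempty → g i ∈ G i) → ∃ f ∈ F, ∀ i, (G i).Nonempty → f i = g i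

/-- the realised boxes with sides of size `B` (or trivial) supported on `J` -/
noncomputable def RealSet (F : Finset (ι → ℕ)) (J : Finset ι) (B m : ℕ) : Finset (ι → Finset ℕ) :=
  (Fintype.piFinset (fun i => if i ∈ J then (range m).powerset else {∅})).filter
    (fun G => (∀ i, G i = ∅ ∨ (G i).card = B) ∧ Realizes F G)

theorem mem_RealSet {F : Finset (ι → ℕ)} {J : Finset ι} {B m : ℕ} {G : ι → Finset ℕ} :
    G ∈ RealSet F J B m ↔ (∀ i ∈ J, G i ⊆ range m) ∧ (∀ i, i ∉ J → G i = ∅) ∧
      (∀ i, G i = ∅ ∨ (G i).card = B) ∧ Realizes F G := by
  unfold RealSet
  rw [mem_filter, Fintype.mem_piFinset]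
  constructor
  · rintro ⟨h1, h2, h3⟩
    refine ⟨?_, ?_, h2, h3⟩
    · intro i hi
      have := h1 i
      rw [if_pos hi] at this
      exact mem_powerset.1 this
    · intro i hi
      have := h1 i
      rw [if_neg hi] at this
      exact mem_singleton.1 this
  · rintro ⟨h1, h2, h3, h4⟩
    refine ⟨?_, h3, h4⟩
    intro i
    by_cases hi : i ∈ J
    · rw [if_pos hi]; exact mem_powerset.2 (h1 i hi)
    · rw [if_neg hi]; exact mem_singleton.2 (h2 i hi)

theorem choose_ge (B t : ℕ) : t + 1 ≤ (B + 1 + t).choose (B + 1) := by
  induction t with
  | zero => simp
  | succ t ih =>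
    have h1 : (B + 1 + (t + 1)).choose (B + 1) =
        (B + 1 + t).choose B + (B + 1 + t).choose (B + 1) := by
      rw [show B + 1 + (t + 1) = (B + 1 + t) + 1 by ring, Nat.choose_succ_succ]
    have h2 : 1 ≤ (B + 1 + t).choose B := Nat.choose_pos (by omega)
    omega

theorem le_choose {B n : ℕ} (hB : 1 ≤ B) : n ≤ (B - 1) + n.choose B := by
  by_cases h : n < B
  · omega
  · obtain ⟨t, rfl⟩ := Nat.exists_eq_add_of_le (not_lt.1 h)
    obtain ⟨B', rfl⟩ := Nat.exists_eq_add_of_le' hB
    have := choose_ge B' t
    omega

theorem card_le_boxes {B m : ℕ} (hB : 1 ≤ B) {V : Finset ℕ} (hV : V ⊆ range m) :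
    V.card ≤ (B - 1) + ((powersetCard B (range m)).filter (fun G => G ⊆ V)).card := by
  have h1 : powersetCard B V ⊆ (powersetCard B (range m)).filter (fun G => G ⊆ V) := by
    intro G hG
    rw [mem_powersetCard] at hG
    rw [mem_filter, mem_powersetCard]
    exact ⟨⟨hG.1.trans hV, hG.2⟩, hG.1⟩
  have h2 := card_le_card h1
  rw [card_powersetCard] at h2
  have := le_choose (n := V.card) hB
  omega

theorem pajor {B m : ℕ} (hB : 2 ≤ B) (J : Finset ι) : ∀ F : Finset (ι → ℕ),
    (∀ f ∈ F, ∀ i ∈ J, f i < m) →
    (F.image (res J)).card ≤ (B - 1) ^ J.card * (RealSet F J B m).card := by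
  induction J using Finset.induction_on with
  | empty =>
    intro F _
    rw [card_empty, pow_zero, one_mul]
    by_cases hF : F.Nonempty
    · obtain ⟨f, hf⟩ := hF
      have h1 : (F.image (res (∅ : Finset ι))).card ≤ 1 := by
        rw [card_le_one]
        intro a ha b hb
        obtain ⟨f1, _, rfl⟩ := mem_image.1 ha
        obtain ⟨f2, _, rfl⟩ := mem_image.1 hb
        funext i
        simp [res]
      have h2 : (fun _ => ∅ : ι → Finset ℕ) ∈ RealSet F ∅ B m := by
        rw [mem_RealSet]
        refine ⟨fun i hi => absurd hi (notMem_empty _), fun i _ => rfl, fun i => Or.inl rfl, ?_⟩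
        intro g _
        exact ⟨f, hf, fun i hi => absurd hi not_nonempty_empty⟩
      have h3 : 0 < (RealSet F ∅ B m).card := card_pos.2 ⟨_, h2⟩
      omega
    · rw [not_nonempty_iff_eq_empty] at hF
      subst hF
      simp
  | insert i J hiJ ih =>
    intro F hF
    set H := F.image (res J) with hH
    set V : (ι → ℕ) → Finset ℕ := fun h => (F.filter (fun f => res J f = h)).image (fun f => f i)
      with hV
    have hmemV : ∀ h x, x ∈ V h ↔ ∃ f ∈ F, res J f = h ∧ f i = x := by
      intro h x
      rw [hV, mem_image]
      constructor
      · rintro ⟨f, hf, rfl⟩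
        rw [mem_filter] at hf
        exact ⟨f, hf.1, hf.2, rfl⟩
      · rintro ⟨f, hf, h1, rfl⟩
        exact ⟨f, mem_filter.2 ⟨hf, h1⟩, rfl⟩
    have hVm : ∀ h, V h ⊆ range m := by
      intro h x hx
      rw [hmemV] at hx
      obtain ⟨f, hf, _, rfl⟩ := hx
      exact mem_range.2 (hF f hf i (mem_insert_self _ _))
    -- fibres
    have h1 : (F.image (res (insert i J))).card ≤ ∑ h ∈ H, (V h).card := by
      rw [← card_sigma]
      refine card_le_card_of_injOn (fun g => ⟨res J g, g i⟩) ?_ ?_
      · intro g hg
        rw [mem_coe, mem_image] at hg
        obtain ⟨f, hf, rfl⟩ := hg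
        have e1 : res J (res (insert i J) f) = res J f := by
          funext j
          unfold res
          by_cases hj : j ∈ J
          · rw [if_pos hj, if_pos hj, if_pos (mem_insert_of_mem hj)]
          · rw [if_neg hj, if_neg hj]
        have e2 : res (insert i J) f i = f i := by
          unfold res; rw [if_pos (mem_insert_self _ _)]
        rw [mem_coe, mem_sigma]
        show res J (res (insert i J) f) ∈ H ∧ res (insert i J) f i ∈ V (res J (res (insert i J) f))
        rw [e1, e2]
        exact ⟨mem_image_of_mem _ hf, (hmemV _ _).2 ⟨f, hf, rfl, rfl⟩⟩
      · intro g hg g' hg' heq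
        rw [mem_coe, mem_image] at hg hg'
        obtain ⟨f, hf, rfl⟩ := hg
        obtain ⟨f', hf', rfl⟩ := hg'
        have heq' : (⟨res J (res (insert i J) f), res (insert i J) f i⟩ : Σ _ : ι → ℕ, ℕ) =
          ⟨res J (res (insert i J) f'), res (insert i J) f' i⟩ := heq
        rw [Sigma.mk.injEq] at heq'
        obtain ⟨e1, e2⟩ := heq'
        have e2' := eq_of_heq e2
        funext j
        by_cases hj : j ∈ J
        · have := congrFun e1 j
          unfold res at this ⊢
          rw [if_pos hj, if_pos hj] at this
          exact this
        · by_cases hji : j = i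
          · rw [hji]; exact e2'
          · have hj' : j ∉ insert i J := by
              rw [mem_insert, not_or]; exact ⟨hji, hj⟩
            unfold res
            rw [if_neg hj', if_neg hj']
    have h2 : ∑ h ∈ H, (V h).card ≤ (B - 1) * H.card +
        ∑ G ∈ powersetCard B (range m), (H.filter (fun h => G ⊆ V h)).card := by
      calc ∑ h ∈ H, (V h).card ≤ ∑ h ∈ H, ((B - 1) +
            ((powersetCard B (range m)).filter (fun G => G ⊆ V h)).card) :=
            sum_le_sum (fun h _ => card_le_boxes (by omega) (hVm h))
        _ = _ := by
            rw [sum_add_distrib, sum_const, smul_eq_mul, mul_comm]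
            congr 1
            simp_rw [card_filter]
            rw [sum_comm]
    -- induction hypothesis
    have h3 : H.card ≤ (B - 1) ^ J.card * (RealSet F J B m).card :=
      ih F (fun f hf j hj => hF f hf j (mem_insert_of_mem hj))
    have h4 : ∀ G ∈ powersetCard B (range m), (H.filter (fun h => G ⊆ V h)).card ≤
        (B - 1) ^ J.card * (RealSet (F.filter (fun f => G ⊆ V (res J f))) J B m).card := by
      intro G _
      have e : H.filter (fun h => G ⊆ V h) = (F.filter (fun f => G ⊆ V (res J f))).image (res J) := by
        ext h
        rw [mem_filter, hH, mem_image, mem_image]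
        constructor
        · rintro ⟨⟨f, hf, rfl⟩, hG⟩
          exact ⟨f, mem_filter.2 ⟨hf, hG⟩, rfl⟩
        · rintro ⟨f, hf, rfl⟩
          rw [mem_filter] at hf
          exact ⟨⟨f, hf.1, rfl⟩, hf.2⟩
      rw [e]
      exact ih _ (fun f hf j hj => hF f (mem_filter.1 hf).1 j (mem_insert_of_mem hj))
    -- realised boxes
    have h5 : (RealSet F J B m).card + ∑ G ∈ powersetCard B (range m),
        (RealSet (F.filter (fun f => G ⊆ V (res J f))) J B m).card ≤
        (RealSet F (insert i J) B m).card := by
      have hmaps : Set.MapsTo (fun G : ι → Finset ℕ => G i) (RealSet F (insert i J) B m)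
          (insert ∅ (powersetCard B (range m)) : Finset (Finset ℕ)) := by
        intro G hG
        rw [mem_coe, mem_RealSet] at hG
        rw [mem_coe, mem_insert]
        show G i = ∅ ∨ G i ∈ powersetCard B (range m)
        rcases hG.2.2.1 i with h | h
        · exact Or.inl h
        · exact Or.inr (mem_powersetCard.2 ⟨hG.1 i (mem_insert_self _ _), h⟩)
      rw [card_eq_sum_card_fiberwise hmaps, sum_insert]
      · apply Nat.add_le_add
        · apply card_le_card
          intro G hG
          rw [mem_RealSet] at hG
          obtain ⟨q1, q2, q3, q4⟩ := hG
          rw [mem_filter, mem_RealSet]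
          refine ⟨⟨?_, ?_, q3, q4⟩, q2 i hiJ⟩
          · intro j hj
            by_cases hjJ : j ∈ J
            · exact q1 j hjJ
            · rw [q2 j hjJ]; exact empty_subset _
          · intro j hj
            exact q2 j (fun h => hj (mem_insert_of_mem h))
        · apply sum_le_sum
          intro G hG
          rw [mem_powersetCard] at hG
          refine card_le_card_of_injOn (fun G' => Function.update G' i G) ?_ ?_
          · intro G' hG'
            rw [mem_coe, mem_RealSet] at hG'
            obtain ⟨q1, q2, q3, q4⟩ := hG'
            show Function.update G' i G ∈ _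
            rw [mem_coe, mem_filter, mem_RealSet]
            refine ⟨⟨?_, ?_, ?_, ?_⟩, Function.update_self _ _ _⟩
            · intro j hj
              by_cases hji : j = i
              · subst hji
                rw [Function.update_self]
                exact hG.1
              · rw [Function.update_of_ne hji]
                by_cases hjJ : j ∈ J
                · exact q1 j hjJ
                · rw [q2 j hjJ]; exact empty_subset _
            · intro j hj
              rw [mem_insert, not_or] at hj
              rw [Function.update_of_ne hj.1]
              exact q2 j hj.2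
            · intro j
              by_cases hji : j = i
              · subst hji
                rw [Function.update_self]
                exact Or.inr hG.2
              · rw [Function.update_of_ne hji]
                exact q3 j
            · intro g hg
              have hGne : G.Nonempty := by
                rw [← card_pos, hG.2]; omega
              have hgi : g i ∈ G := by
                have := hg i (by rw [Function.update_self]; exact hGne)
                rwa [Function.update_self] at this
              obtain ⟨f, hf, hfg⟩ := q4 g (by
                intro j hj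
                have hji : j ≠ i := by
                  intro h
                  subst h
                  rw [q2 j hiJ] at hj
                  exact not_nonempty_empty hj
                have := hg j (by rw [Function.update_of_ne hji]; exact hj)
                rwa [Function.update_of_ne hji] at this)
              rw [mem_filter] at hf
              obtain ⟨f2, hf2, hr, hv⟩ := (hmemV _ _).1 (hf.2 hgi)
              refine ⟨f2, hf2, ?_⟩
              intro j hj
              by_cases hji : j = i
              · rw [hji]; exact hv
              · rw [Function.update_of_ne hji] at hj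
                have hjJ : j ∈ J := by
                  by_contra hcon
                  rw [q2 j hcon] at hj
                  exact not_nonempty_empty hj
                have h6 := congrFun hr j
                unfold res at h6
                rw [if_pos hjJ, if_pos hjJ] at h6
                rw [h6]
                exact hfg j hj
          · intro G1 hG1 G2 hG2 heq
            rw [mem_coe, mem_RealSet] at hG1 hG2
            funext j
            by_cases hji : j = i
            · rw [hji, hG1.2.1 i hiJ, hG2.2.1 i hiJ]
            · have := congrFun heq j
              simp only [Function.update_of_ne hji] at this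
              exact this
      · intro h
        rw [mem_powersetCard, card_empty] at h
        omega
    have h6 := sum_le_sum h4
    rw [← mul_sum] at h6
    rw [card_insert_of_notMem hiJ]
    have hB1 : 1 ≤ B - 1 := by omega
    calc (F.image (res (insert i J))).card ≤ (B - 1) * H.card +
          ∑ G ∈ powersetCard B (range m), (H.filter (fun h => G ⊆ V h)).card := h1.trans h2
      _ ≤ (B - 1) * ((B - 1) ^ J.card * (RealSet F J B m).card) +
          (B - 1) ^ J.card * ∑ G ∈ powersetCard B (range m),
            (RealSet (F.filter (fun f => G ⊆ V (res J f))) J B m).card :=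
          Nat.add_le_add (Nat.mul_le_mul_left _ h3) h6
      _ ≤ (B - 1) * ((B - 1) ^ J.card * (RealSet F J B m).card) +
          (B - 1) * ((B - 1) ^ J.card * ∑ G ∈ powersetCard B (range m),
            (RealSet (F.filter (fun f => G ⊆ V (res J f))) J B m).card) := by
          apply Nat.add_le_add_left
          exact Nat.le_mul_of_pos_left _ hB1
      _ = (B - 1) ^ (J.card + 1) * ((RealSet F J B m).card +
          ∑ G ∈ powersetCard B (range m),
            (RealSet (F.filter (fun f => G ⊆ V (res J f))) J B m).card) := by
          rw [pow_succ]; ring
      _ ≤ (B - 1) ^ (J.card + 1) * (RealSet F (insert i J) B m).card :=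
          Nat.mul_le_mul_left _ h5

end Pool.Agent.CycShift
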