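import Pool.Agent.CycShift.Linear
import Pool.Agent.CycShift.Pajor

/-!
# Orders induced on a set of letters, and realised boxes
-/

set_option autoImplicit false
set_option linter.unusedSectionVars false

namespace Pool.Agent.CycShift

open Finset

open scoped Classical

variable {ι : Type} [Fintype ι]

/-- the order relation induced by `f` on `J` -/
noncomputable def ord (J : Finset ι) (f : ι → ℕ) : Finset (ι × ι) :=
  univ.filter (fun p => p.1 ∈ J ∧ p.2 ∈ J ∧ f p.1 < f p.2)

theorem mem_ord {J : Finset ι} {f : ι → ℕ} {i j : ι} :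
    (i, j) ∈ ord J f ↔ i ∈ J ∧ j ∈ J ∧ f i < f j := by
  unfold ord
  rw [mem_filter]
  exact ⟨fun h => h.2, fun h => ⟨mem_univ _, h⟩⟩

/-- rank function -/
noncomputable def rk (J : Finset ι) (f : ι → ℕ) : ι → ℕ :=
  fun i => if i ∈ J then (J.filter (fun j => f j < f i)).card else 0

theorem rk_lt {J : Finset ι} {f : ι → ℕ} {i : ι} (hi : i ∈ J) : rk J f i < J.card := by
  unfold rk
  rw [if_pos hi]
  apply card_lt_card
  rw [ssubset_iff_of_subset (filter_subset _ _)]
  exact ⟨i, hi, fun h => lt_irrefl _ (mem_filter.1 h).2⟩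

theorem rk_mono {J : Finset ι} {f : ι → ℕ} {i j : ι} (hi : i ∈ J) (hj : j ∈ J) (h : f i < f j) :
    rk J f i < rk J f j := by
  unfold rk
  rw [if_pos hi, if_pos hj]
  apply card_lt_card
  rw [ssubset_iff_of_subset]
  · exact ⟨i, mem_filter.2 ⟨hi, h⟩, fun h' => lt_irrefl _ (mem_filter.1 h').2⟩
  · intro x hx
    rw [mem_filter] at hx ⊢
    exact ⟨hx.1, hx.2.trans h⟩

theorem rk_iff {J : Finset ι} {f : ι → ℕ} {i j : ι} (hi : i ∈ J) (hj : j ∈ J) :
    rk J f i < rk J f j ↔ f i < f j := by
  constructor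
  · intro h
    by_contra hcon
    rcases lt_or_eq_of_le (not_lt.1 hcon) with h1 | h1
    · exact lt_asymm h (rk_mono hj hi h1)
    · have : rk J f i = rk J f j := by
        unfold rk
        rw [if_pos hi, if_pos hj, h1]
      omega
  · exact rk_mono hi hj

theorem rk_inj {J : Finset ι} {f : ι → ℕ} (hf : Function.Injective f) {i j : ι} (hi : i ∈ J)
    (hj : j ∈ J) (h : rk J f i = rk J f j) : i = j := by
  by_contra hne
  rcases lt_or_gt_of_ne (fun h' => hne (hf h') : f i ≠ f j) with h1 | h1
  · have := rk_mono hi hj h1; omega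
  · have := rk_mono hj hi h1; omega

theorem ord_rk (J : Finset ι) (f : ι → ℕ) : ord J (rk J f) = ord J f := by
  ext ⟨i, j⟩
  rw [mem_ord, mem_ord]
  constructor
  · rintro ⟨hi, hj, h⟩
    exact ⟨hi, hj, (rk_iff hi hj).1 h⟩
  · rintro ⟨hi, hj, h⟩
    exact ⟨hi, hj, (rk_iff hi hj).2 h⟩

/-- the orders induced on `J` -/
noncomputable def Ords (P : Finset (ι → ℕ)) (J : Finset ι) : Finset (Finset (ι × ι)) :=
  P.image (ord J)

theorem ord_mem_Ords {P : Finset (ι → ℕ)} {J : Finset ι} {f : ι → ℕ} (hf : f ∈ P) :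
    ord J f ∈ Ords P J := by
  unfold Ords
  exact mem_image.2 ⟨f, hf, rfl⟩

/-- the rank functions -/
noncomputable def Rks (P : Finset (ι → ℕ)) (J : Finset ι) : Finset (ι → ℕ) := P.image (rk J)

theorem Ords_le (P : Finset (ι → ℕ)) (J : Finset ι) : (Ords P J).card ≤ (Rks P J).card := by
  have h : Ords P J = (Rks P J).image (ord J) := by
    unfold Ords Rks
    rw [image_image]
    apply image_congr
    intro f _
    exact (ord_rk J f).symm
  rw [h]
  exact card_image_le

theorem res_rk (J : Finset ι) (f : ι → ℕ) : res J (rk J f) = rk J f := by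
  funext i
  unfold res rk
  by_cases hi : i ∈ J
  · rw [if_pos hi]
  · rw [if_neg hi, if_neg hi]

theorem Ords_le_boxes (P : Finset (ι → ℕ)) (J : Finset ι) {B : ℕ} (hB : 2 ≤ B) :
    (Ords P J).card ≤ (B - 1) ^ J.card * (RealSet (Rks P J) J B J.card).card := by
  refine (Ords_le P J).trans ?_
  have h := pajor (m := J.card) hB J (Rks P J) (by
    intro f hf i hi
    obtain ⟨g, _, rfl⟩ := mem_image.1 hf
    exact rk_lt hi)
  have e : (Rks P J).image (res J) = Rks P J := by
    unfold Rks
    rw [image_image]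
    apply image_congr
    intro f _
    exact res_rk J f
  rw [e] at h
  exact h

theorem Ords_trivial (P : Finset (ι → ℕ)) (J : Finset ι) :
    (Ords P J).card ≤ 2 ^ (J.card * J.card) := by
  have h : Ords P J ⊆ (J ×ˢ J).powerset := by
    intro o ho
    obtain ⟨f, _, rfl⟩ := mem_image.1 ho
    rw [mem_powerset]
    rintro ⟨i, j⟩ hij
    rw [mem_ord] at hij
    exact mem_product.2 ⟨hij.1, hij.2.1⟩
  have := card_le_card h
  rw [card_powerset, card_product] at this
  exact this

/-- the family contains all words of N-shape on some `k` letters -/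
def Shape (P : Finset (ι → ℕ)) (k : ℕ) : Prop :=
  ∃ x : ℕ → ι, (∀ i j, i < j → j < k → x i ≠ x j) ∧
    ∀ φ : ℕ → Fin 3, ∃ f ∈ P, ∀ i < k, ∀ j < k,
      (φ i < φ j → f (x i) < f (x j)) ∧
      (φ i = φ j → i < j → (φ i = 1 → f (x j) < f (x i)) ∧ (φ i ≠ 1 → f (x i) < f (x j)))

/-- support of a box -/
noncomputable def supp (J : Finset ι) (G : ι → Finset ℕ) : Finset ι :=
  J.filter (fun i => (G i).Nonempty)

theorem realized {P : Finset (ι → ℕ)} {J : Finset ι} {B m : ℕ} {G : ι → Finset ℕ}
    (hG : G ∈ RealSet (Rks P J) J B m) (g : ι → ℕ) (hg : ∀ i ∈ supp J G, g i ∈ G i) :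
    ∃ f ∈ P, ∀ i ∈ supp J G, rk J f i = g i := by
  obtain ⟨q1, q2, q3, q4⟩ := mem_RealSet.1 hG
  have hne : ∀ i, (G i).Nonempty → i ∈ supp J G := by
    intro i hi
    unfold supp
    rw [mem_filter]
    refine ⟨?_, hi⟩
    by_contra hcon
    rw [q2 i hcon] at hi
    exact not_nonempty_empty hi
  obtain ⟨h, hh, hh2⟩ := q4 g (fun i hi => hg i (hne i hi))
  obtain ⟨f, hf, rfl⟩ := mem_image.1 hh
  refine ⟨f, hf, ?_⟩
  intro i hi
  exact hh2 i (mem_filter.1 hi).2

/-- the sides of a realised box are disjoint -/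
theorem box_disjoint {P : Finset (ι → ℕ)} (hP : ∀ f ∈ P, Function.Injective f) {J : Finset ι}
    {B m : ℕ} {G : ι → Finset ℕ} (hG : G ∈ RealSet (Rks P J) J B m) {i j : ι}
    (hi : i ∈ supp J G) (hj : j ∈ supp J G) (hij : i ≠ j) : Disjoint (G i) (G j) := by
  rw [disjoint_left]
  intro r hri hrj
  obtain ⟨f, hf, hfg⟩ := realized hG
    (fun l => if l = i ∨ l = j then r else if h : (G l).Nonempty then h.choose else 0) (by
      intro l hl
      show (if l = i ∨ l = j then r else if h : (G l).Nonempty then h.choose else 0) ∈ G l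
      by_cases h1 : l = i ∨ l = j
      · rw [if_pos h1]
        rcases h1 with rfl | rfl
        · exact hri
        · exact hrj
      · rw [if_neg h1]
        have h2 : (G l).Nonempty := (mem_filter.1 hl).2
        rw [dif_pos h2]
        exact h2.choose_spec)
  have e1 := hfg i hi
  have e2 := hfg j hj
  simp only [true_or, or_true, if_true] at e1 e2
  exact hij (rk_inj (hP f hf) (mem_filter.1 hi).1 (mem_filter.1 hj).1 (e1.trans e2.symm))

theorem supp_card {P : Finset (ι → ℕ)} (hP : ∀ f ∈ P, Function.Injective f) {J : Finset ι}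
    {B : ℕ} {G : ι → Finset ℕ} (hG : G ∈ RealSet (Rks P J) J B J.card) :
    (supp J G).card * B ≤ J.card := by
  have h1 : ((supp J G).biUnion G).card = ∑ i ∈ supp J G, (G i).card :=
    card_biUnion (fun i hi j hj hij => box_disjoint hP hG hi hj hij)
  obtain ⟨q1, q2, q3, q4⟩ := mem_RealSet.1 hG
  have h2 : ∑ i ∈ supp J G, (G i).card = (supp J G).card * B := by
    rw [← smul_eq_mul, ← sum_const]
    apply sum_congr rfl
    intro i hi
    rcases q3 i with h | h
    · have := (mem_filter.1 hi).2
      rw [h] at this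
      exact absurd this not_nonempty_empty
    · exact h
  have h3 : (supp J G).biUnion G ⊆ range J.card := by
    intro r hr
    obtain ⟨i, hi, hri⟩ := mem_biUnion.1 hr
    exact q1 i (mem_filter.1 hi).1 hri
  have h4 := card_le_card h3
  rw [card_range, h1, h2] at h4
  exact h4

/-- an N-shaped copy in the contracted matrix gives an N-shape in the family -/
theorem shape_of_copy {P : Finset (ι → ℕ)} {J : Finset ι} {B m s k : ℕ} {G : ι → Finset ℕ}
    (hG : G ∈ RealSet (Rks P J) J B m)
    (h : Copy (supp J G) (fun i => (G i).image (fun r => r / s)) k) : Shape P k := by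
  obtain ⟨x, r, r', r'', h1, h2, h3⟩ := h
  refine ⟨x, fun i j hij hj => (h2 i j hij hj).1, ?_⟩
  intro φ
  -- target block
  set b : ℕ → ℕ := fun i => if φ i = 0 then r i else if φ i = 1 then r' i else r'' i with hb
  have hbmem : ∀ i < k, b i ∈ (G (x i)).image (fun r => r / s) := by
    intro i hi
    obtain ⟨q1, q2, q3, q4⟩ := h1 i hi
    rw [hb]
    show (if φ i = 0 then r i else if φ i = 1 then r' i else r'' i) ∈ _
    split_ifs
    · exact q2
    · exact q3
    · exact q4
  have hex : ∀ i, ∃ t, i < k → t ∈ G (x i) ∧ t / s = b i := by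
    intro i
    by_cases hi : i < k
    · obtain ⟨t, ht, he⟩ := mem_image.1 (hbmem i hi)
      exact ⟨t, fun _ => ⟨ht, he⟩⟩
    · exact ⟨0, fun h => absurd h hi⟩
  choose t ht using hex
  have hxinj : ∀ i < k, ∀ j < k, x i = x j → i = j := by
    intro i hi j hj hxx
    by_contra hne
    rcases lt_or_gt_of_ne hne with h | h
    · exact (h2 i j h hj).1 hxx
    · exact (h2 j i h hi).1 hxx.symm
  obtain ⟨f, hf, hfg⟩ := realized hG
    (fun l => if h : ∃ i, i < k ∧ x i = l then t h.choose else
      if h : (G l).Nonempty then h.choose else 0) (by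
      intro l hl
      show (if h : ∃ i, i < k ∧ x i = l then t h.choose else
        if h : (G l).Nonempty then h.choose else 0) ∈ G l
      by_cases h4 : ∃ i, i < k ∧ x i = l
      · rw [dif_pos h4]
        have := (ht _ h4.choose_spec.1).1
        rw [h4.choose_spec.2] at this
        exact this
      · rw [dif_neg h4]
        have h5 : (G l).Nonempty := (mem_filter.1 hl).2
        rw [dif_pos h5]
        exact h5.choose_spec)
  have hval : ∀ i < k, rk J f (x i) = t i := by
    intro i hi
    rw [hfg (x i) (h1 i hi).1]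
    have h4 : ∃ i', i' < k ∧ x i' = x i := ⟨i, hi, rfl⟩
    show (if h : ∃ i', i' < k ∧ x i' = x i then t h.choose else
        if h : (G (x i)).Nonempty then h.choose else 0) = t i
    rw [dif_pos h4]
    rw [hxinj _ h4.choose_spec.1 _ hi h4.choose_spec.2]
  have hlt : ∀ i < k, ∀ j < k, b i < b j → f (x i) < f (x j) := by
    intro i hi j hj hbb
    have hxi : x i ∈ J := (mem_filter.1 (h1 i hi).1).1
    have hxj : x j ∈ J := (mem_filter.1 (h1 j hj).1).1
    rw [← rk_iff hxi hxj, hval i hi, hval j hj]
    by_contra hcon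
    have := Nat.div_le_div_right (c := s) (not_lt.1 hcon)
    rw [(ht i hi).2, (ht j hj).2] at this
    omega
  refine ⟨f, hf, ?_⟩
  intro i hi j hj
  refine ⟨?_, ?_⟩
  · intro hφ
    apply hlt i hi j hj
    rw [hb]
    show (if φ i = 0 then r i else if φ i = 1 then r' i else r'' i) <
      (if φ j = 0 then r j else if φ j = 1 then r' j else r'' j)
    have ha := h3 i hi j hj
    have hc := h3 i hi i hi
    have hd := h3 j hj j hj
    have he := h3 i hi j hj
    split_ifs with e1 e2 e3 e4 e5 e6 <;>
      first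
      | (exfalso; rw [e1, e2] at hφ; exact absurd hφ (by decide))
      | (exfalso; omega)
      | omega
  · intro hφ hij
    obtain ⟨g1, g2, g3, g4⟩ := h2 i j hij hj
    refine ⟨?_, ?_⟩
    · intro h11
      apply hlt j hj i hi
      have h12 : φ j = 1 := hφ ▸ h11
      rw [hb]
      show (if φ j = 0 then r j else if φ j = 1 then r' j else r'' j) <
        (if φ i = 0 then r i else if φ i = 1 then r' i else r'' i)
      rw [h11, h12]
      simpa using g3
    · intro h11
      apply hlt i hi j hj
      rw [hb]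
      show (if φ i = 0 then r i else if φ i = 1 then r' i else r'' i) <
        (if φ j = 0 then r j else if φ j = 1 then r' j else r'' j)
      rw [← hφ]
      by_cases h0 : φ i = 0
      · rw [if_pos h0, if_pos h0]; exact g2
      · rw [if_neg h0, if_neg h11, if_neg h0, if_neg h11]; exact g4

end Pool.Agent.CycShift
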