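import Mathlib

set_option autoImplicit false

/-!
# Permutations with forbidden cyclic shifts: definitions

Permutations of `[n]` are elements of `Equiv.Perm (Fin n)`, patterns of length `k` are sequences
`Fin k → ℕ` (only the order of their entries matters, so `(1, 3, 5, 2, 4)` is `![1, 3, 5, 2, 4]`).
-/

namespace Pool.Agent.CycShift.Own

/-- The restriction of the permutation `π` at the set of positions `S = {s 0 < s 1 < ...}` is `σ`:
`S` has `k` elements, and `σ i < σ j` if and only if `π (s i) < π (s j)`. -/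
def RestrictsTo {n k : ℕ} (π : Equiv.Perm (Fin n)) (S : Finset (Fin n)) (σ : Fin k → ℕ) : Prop :=
  ∃ h : S.card = k, ∀ i j : Fin k,
    σ i < σ j ↔ π (S.orderEmbOfFin h i) < π (S.orderEmbOfFin h j)

/-- The cyclic shift `(a r, a (r + 1), ..., a (r - 1))` of `a` (indices modulo `k`). -/
def shift {k : ℕ} (a : Fin k → ℕ) (r i : Fin k) : ℕ := a (i + r)

/-- In the set `X` there is a set `A` of `k` positions at which all cyclic shifts of `a` are
forbidden: no member of `P` has such a restriction at `A`. -/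
def ShiftsForbidden {n k : ℕ} (P : Finset (Equiv.Perm (Fin n))) (X : Finset (Fin n))
    (a : Fin k → ℕ) : Prop :=
  ∃ A ⊆ X, A.card = k ∧ ∀ r : Fin k, ∀ π ∈ P, ¬ RestrictsTo π A (shift a r)

/-- `N`-admissible sets of permutations. -/
def Admissible {n : ℕ} (N : ℕ) (P : Finset (Equiv.Perm (Fin n))) : Prop :=
  ∀ X : Finset (Fin n), X.card = N →
    ShiftsForbidden P X ![1, 3, 5, 2, 4] ∨ ShiftsForbidden P X ![1, 4, 2, 5, 3] ∨
    ShiftsForbidden P X ![1, 2, 3, 6, 5, 4] ∨ ShiftsForbidden P X ![1, 4, 5, 6, 3, 2]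

/-- `τ` is of the type increasing, decreasing, increasing: for some `a ≤ b` the entries below `a`
increase, the entries in `[a, b)` decrease, and the entries from `b` on increase. -/
def IncDecInc {k : ℕ} (τ : Fin k → ℕ) : Prop :=
  Function.Injective τ ∧ ∃ a b : ℕ, a ≤ b ∧ ∀ i j : Fin k, i < j →
    (τ i < a → τ j < a → τ i < τ j) ∧
    (a ≤ τ i → τ i < b → a ≤ τ j → τ j < b → τ j < τ i) ∧
    (b ≤ τ i → b ≤ τ j → τ i < τ j)

/-- `τ` is of the type decreasing, increasing, decreasing: for some `a ≤ b` the entries below `a`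
decrease, the entries in `[a, b)` increase, and the entries from `b` on decrease. -/
def DecIncDec {k : ℕ} (τ : Fin k → ℕ) : Prop :=
  Function.Injective τ ∧ ∃ a b : ℕ, a ≤ b ∧ ∀ i j : Fin k, i < j →
    (τ i < a → τ j < a → τ j < τ i) ∧
    (a ≤ τ i → τ i < b → a ≤ τ j → τ j < b → τ i < τ j) ∧
    (b ≤ τ i → b ≤ τ j → τ j < τ i)

end Pool.Agent.CycShift.Own
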