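import Pool.Agent.CycShift.Final
import Pool.Agent.CycShift.OwnDefs

set_option autoImplicit false

/-!
# The structure theorem for large sets of permutations, and the question on cyclic shifts
-/

namespace Pool.Agent.CycShift.Own

open Finset Pool.Agent.CycShift

theorem layers_inc {k : ℕ} {τ : Fin k → ℕ} (h : IncDecInc τ) :
    ∃ c : Fin k → Fin 3, ∀ i j, τ i < τ j →
      c i < c j ∨ (c i = c j ∧ (if c i = 1 then j < i else i < j)) := by
  obtain ⟨hinj, a, b, hab, h⟩ := h
  refine ⟨fun i => if τ i < a then 0 else if τ i < b then 1 else 2, ?_⟩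
  intro i j hij
  have hne : i ≠ j := fun h0 => by rw [h0] at hij; exact lt_irrefl _ hij
  rcases lt_or_gt_of_ne hne with h1 | h1
  · obtain ⟨h2, h3, h4⟩ := h i j h1
    by_cases hia : τ i < a
    · by_cases hja : τ j < a
      · right; simp [hia, hja, h1]
      · left
        by_cases hjb : τ j < b
        · simp [hia, hja, hjb]
        · simp [hia, hja, hjb]
    · have hja : ¬ τ j < a := by omega
      by_cases hib : τ i < b
      · by_cases hjb : τ j < b
        · have := h3 (by omega) hib (by omega) hjb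
          omega
        · left; simp [hia, hja, hib, hjb]
      · have hjb : ¬ τ j < b := by omega
        right; simp [hia, hja, hib, hjb, h1]
  · obtain ⟨h2, h3, h4⟩ := h j i h1
    by_cases hia : τ i < a
    · by_cases hja : τ j < a
      · have := h2 hja hia
        omega
      · left
        by_cases hjb : τ j < b
        · simp [hia, hja, hjb]
        · simp [hia, hja, hjb]
    · have hja : ¬ τ j < a := by omega
      by_cases hib : τ i < b
      · by_cases hjb : τ j < b
        · right; simp [hia, hja, hib, hjb, h1]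
        · left; simp [hia, hja, hib, hjb]
      · have hjb : ¬ τ j < b := by omega
        have := h4 (by omega) (by omega)
        omega

theorem layers_dec {k : ℕ} {τ : Fin k → ℕ} (h : DecIncDec τ) :
    ∃ c : Fin k → Fin 3, ∀ i j, τ i < τ j →
      c i < c j ∨ (c i = c j ∧ (if c i = 1 then i < j else j < i)) := by
  obtain ⟨hinj, a, b, hab, h⟩ := h
  refine ⟨fun i => if τ i < a then 0 else if τ i < b then 1 else 2, ?_⟩
  intro i j hij
  have hne : i ≠ j := fun h0 => by rw [h0] at hij; exact lt_irrefl _ hij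
  rcases lt_or_gt_of_ne hne with h1 | h1
  · obtain ⟨h2, h3, h4⟩ := h i j h1
    by_cases hia : τ i < a
    · by_cases hja : τ j < a
      · have := h2 hia hja
        omega
      · left
        by_cases hjb : τ j < b
        · simp [hia, hja, hjb]
        · simp [hia, hja, hjb]
    · have hja : ¬ τ j < a := by omega
      by_cases hib : τ i < b
      · by_cases hjb : τ j < b
        · right; simp [hia, hja, hib, hjb, h1]
        · left; simp [hia, hja, hib, hjb]
      · have hjb : ¬ τ j < b := by omega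
        have := h4 (by omega) (by omega)
        omega
  · obtain ⟨h2, h3, h4⟩ := h j i h1
    by_cases hia : τ i < a
    · by_cases hja : τ j < a
      · right; simp [hia, hja, h1]
      · left
        by_cases hjb : τ j < b
        · simp [hia, hja, hjb]
        · simp [hia, hja, hjb]
    · have hja : ¬ τ j < a := by omega
      by_cases hib : τ i < b
      · by_cases hjb : τ j < b
        · have := h3 (by omega) hjb (by omega) hib
          omega
        · left; simp [hia, hja, hib, hjb]
      · have hjb : ¬ τ j < b := by omega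
        right; simp [hia, hja, hib, hjb, h1]

/-- A set of more than `2 ^ (c n)` permutations shows all patterns of one of the two types at all
subsets of some set of `N` positions. -/
theorem structure_all (N : ℕ) : ∃ c : ℕ, ∀ (n : ℕ) (P : Finset (Equiv.Perm (Fin n))),
    2 ^ (c * n) < P.card → ∃ X : Finset (Fin n), X.card = N ∧
      ((∀ A ⊆ X, ∀ τ : Fin A.card → ℕ, IncDecInc τ → ∃ π ∈ P, RestrictsTo π A τ) ∨
        (∀ A ⊆ X, ∀ τ : Fin A.card → ℕ, DecIncDec τ → ∃ π ∈ P, RestrictsTo π A τ)) := by
  obtain ⟨k, hk⟩ : ∃ k, k + 1 = 2 ^ (N + N) := ⟨2 ^ (N + N) - 1, by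
    have : 0 < 2 ^ (N + N) := by positivity
    omega⟩
  set K := 8 * cc k * 2 ^ (8 * cc k) * (2 * (8 * cc k)) ^ (8 * cc k) with hK
  refine ⟨K ^ 2, ?_⟩
  intro n P hP
  have hsh0 : Shape (vals P) (k + 1) := by
    by_contra hno
    have h1 := Ords_bound vals_inj k hno n Finset.univ
      (by rw [Finset.card_univ, Fintype.card_fin])
    have h2 := card_perm_le P
    rw [← hK] at h1
    have h3 : P.card ≤ 2 ^ (K ^ 2 * n) := by
      calc P.card ≤ K ^ (2 * n) := h2.trans h1
        _ = (K ^ 2) ^ n := pow_mul _ _ _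
        _ ≤ (2 ^ K ^ 2) ^ n := Nat.pow_le_pow_left (Nat.lt_two_pow_self).le n
        _ = 2 ^ (K ^ 2 * n) := (pow_mul _ _ _).symm
    exact absurd h3 (not_le.2 hP)
  obtain ⟨x, hx, hsh⟩ := hsh0
  have hinj : Set.InjOn x (Finset.range (k + 1)) := by
    intro a ha b hb hab
    rw [Finset.mem_coe, Finset.mem_range] at ha hb
    rcases lt_trichotomy a b with h | h | h
    · exact absurd hab (hx a b h hb)
    · exact h
    · exact absurd hab.symm (hx b a h ha)
  rcases mono_sub x (N + N) N N rfl (Finset.range (k + 1)) hinj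
    (by rw [Finset.card_range, hk]) with ⟨U, hU, hUc, hUm⟩ | ⟨U, hU, hUc, hUm⟩
  · have hXc : (U.image x).card = N := by
      rw [Finset.card_image_of_injOn (hinj.mono (Finset.coe_subset.2 hU)), hUc]
    refine ⟨U.image x, hXc, Or.inl ?_⟩
    intro A hA τ hτ
    obtain ⟨c, hc⟩ := layers_inc hτ
    obtain ⟨π, hπ, hs⟩ := hit_inc hsh hU hUm (A.orderEmbOfFin rfl).strictMono
      (fun i => hA (Finset.orderEmbOfFin_mem A rfl i)) τ hτ.1 c hc
    exact ⟨π, hπ, rfl, fun i j => (hs i j).symm⟩
  · have hXc : (U.image x).card = N := by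
      rw [Finset.card_image_of_injOn (hinj.mono (Finset.coe_subset.2 hU)), hUc]
    refine ⟨U.image x, hXc, Or.inr ?_⟩
    intro A hA τ hτ
    obtain ⟨c, hc⟩ := layers_dec hτ
    obtain ⟨π, hπ, hs⟩ := hit_dec hsh hU hUm (A.orderEmbOfFin rfl).strictMono
      (fun i => hA (Finset.orderEmbOfFin_mem A rfl i)) τ hτ.1 c hc
    exact ⟨π, hπ, rfl, fun i j => (hs i j).symm⟩

/-- A set which shows all patterns of one type is not admissible. -/
theorem not_shifts {n k : ℕ} {P : Finset (Equiv.Perm (Fin n))} {X : Finset (Fin n)}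
    {T : ∀ {m : ℕ}, (Fin m → ℕ) → Prop} (a : Fin k → ℕ) (r : Fin k)
    (hX : ∀ A ⊆ X, ∀ τ : Fin A.card → ℕ, T τ → ∃ π ∈ P, RestrictsTo π A τ)
    (hT : T (shift a r)) : ¬ ShiftsForbidden P X a := by
  rintro ⟨A, hA, hk, h⟩
  subst hk
  obtain ⟨π, hπ, hs⟩ := hX A hA (shift a r) hT
  exact h r π hπ hs

/-- The question: admissible sets of permutations are exponentially small; and the structure of the
sets which are larger. -/
theorem main (N : ℕ) : ∃ c : ℕ, ∀ (n : ℕ) (P : Finset (Equiv.Perm (Fin n))),
    (Admissible N P → P.card ≤ 2 ^ (c * n)) ∧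
    (2 ^ (c * n) < P.card → ∃ X : Finset (Fin n), X.card = N ∧
      ((∀ A ⊆ X, ∀ τ : Fin A.card → ℕ, IncDecInc τ → ∃ π ∈ P, RestrictsTo π A τ) ∨
        (∀ A ⊆ X, ∀ τ : Fin A.card → ℕ, DecIncDec τ → ∃ π ∈ P, RestrictsTo π A τ))) := by
  obtain ⟨c, hc⟩ := structure_all N
  refine ⟨c, fun n P => ⟨fun hP => ?_, hc n P⟩⟩
  by_contra hcon
  rw [not_le] at hcon
  obtain ⟨X, hXN, hX | hX⟩ := hc n P hcon
  · rcases hP X hXN with h | h | h | h
    · exact not_shifts (T := IncDecInc) ![1, 3, 5, 2, 4] 4 hX
        ⟨by unfold shift; decide, 2, 4, by omega, by unfold shift; decide⟩ h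
    · exact not_shifts (T := IncDecInc) ![1, 4, 2, 5, 3] 0 hX
        ⟨by unfold shift; decide, 4, 5, by omega, by unfold shift; decide⟩ h
    · exact not_shifts (T := IncDecInc) ![1, 2, 3, 6, 5, 4] 0 hX
        ⟨by unfold shift; decide, 5, 7, by omega, by unfold shift; decide⟩ h
    · exact not_shifts (T := IncDecInc) ![1, 4, 5, 6, 3, 2] 0 hX
        ⟨by unfold shift; decide, 3, 5, by omega, by unfold shift; decide⟩ h
  · rcases hP X hXN with h | h | h | h
    · exact not_shifts (T := DecIncDec) ![1, 3, 5, 2, 4] 1 hX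
        ⟨by unfold shift; decide, 4, 5, by omega, by unfold shift; decide⟩ h
    · exact not_shifts (T := DecIncDec) ![1, 4, 2, 5, 3] 2 hX
        ⟨by unfold shift; decide, 3, 4, by omega, by unfold shift; decide⟩ h
    · exact not_shifts (T := DecIncDec) ![1, 2, 3, 6, 5, 4] 0 hX
        ⟨by unfold shift; decide, 2, 4, by omega, by unfold shift; decide⟩ h
    · exact not_shifts (T := DecIncDec) ![1, 4, 5, 6, 3, 2] 1 hX
        ⟨by unfold shift; decide, 4, 6, by omega, by unfold shift; decide⟩ h

end Pool.Agent.CycShift.Own
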