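import Mathlib

/-!
# Thin matrices have linearly many ones; colouring of sparse acyclic relations; marks
-/

set_option autoImplicit false

namespace Pool.Agent.CycShift

open Finset

open scoped Classical

/-- row merging map -/
def mrg (a b r : ℕ) : ℕ := if r ≤ a + 1 then r else if r < b then a + 1 else r - (b - a - 2)

theorem mrg_mono {a b : ℕ} (hab : a + 2 ≤ b) {r s : ℕ} (h : r ≤ s) : mrg a b r ≤ mrg a b s := by
  unfold mrg
  split_ifs <;> omega

theorem mrg_lt {a b : ℕ} {r s : ℕ} (hab : a + 2 ≤ b) (h : mrg a b r < mrg a b s) : r < s := by
  by_contra hcon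
  have := mrg_mono hab (not_lt.1 hcon)
  omega

theorem mrg_inj {a b : ℕ} (hab : a + 2 ≤ b) {r s : ℕ} (h : mrg a b r = mrg a b s) (hrs : r < s) :
    a < r ∧ s < b := by
  unfold mrg at h
  split_ifs at h <;> omega

theorem mrg_bound {a b m r : ℕ} (hab : a + 2 ≤ b) (hb : b < m) (hr : r < m) :
    mrg a b r < m - (b - a - 2) := by
  unfold mrg
  split_ifs <;> omega

/-- Removal lemma: a thin matrix with `m` rows and `n` columns has at most `m + 3 n` ones. -/
theorem remove_bound {V α : Type*} [LinearOrder α] (h : V → α) :
    ∀ (n : ℕ) (T : Finset V) (ρ : V → Finset ℕ) (a b : V → ℕ) (m : ℕ), T.card = n →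
      (∀ u ∈ T, a u ∈ ρ u ∧ b u ∈ ρ u ∧ ∀ r ∈ ρ u, a u ≤ r ∧ r ≤ b u ∧ r < m) →
      (∀ u ∈ T, ∀ v ∈ T, u ≠ v → h u ≤ h v →
        ((ρ v).filter (fun r => a u < r ∧ r < b u)).card ≤ 1) →
      ∑ u ∈ T, (ρ u).card ≤ m + 3 * n := by
  intro n
  induction n with
  | zero =>
    intro T ρ a b m hT _ _
    rw [card_eq_zero] at hT
    subst hT
    simp
  | succ n ih =>
    intro T ρ a b m hT hrow hthin
    have hne : T.Nonempty := by
      rw [← card_pos, hT]; omega
    obtain ⟨u, hu, hmin⟩ := exists_min_image T h hne
    have hT0 : (T.erase u).card = n := by rw [card_erase_of_mem hu, hT]; rfl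
    have hsum : ∑ v ∈ T, (ρ v).card = (ρ u).card + ∑ v ∈ T.erase u, (ρ v).card := by
      rw [add_sum_erase T (fun v => (ρ v).card) hu]
    obtain ⟨hua, hub, hur⟩ := hrow u hu
    have hbm : b u < m := (hur _ hub).2.2
    have hsub : ρ u ⊆ Icc (a u) (b u) := by
      intro r hr
      rw [mem_Icc]
      exact ⟨(hur r hr).1, (hur r hr).2.1⟩
    have hcard := card_le_card hsub
    rw [Nat.card_Icc] at hcard
    have hab0 : a u ≤ b u := (hur _ hua).2.1
    by_cases hab : a u + 2 ≤ b u
    · -- merge the rows strictly between
      have hin : ∀ v ∈ T.erase u, Set.InjOn (mrg (a u) (b u)) (ρ v : Set ℕ) := by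
        intro v hv r hr s hs hrs
        rw [mem_erase] at hv
        have h1 := hthin u hu v hv.2 hv.1.symm (hmin v hv.2)
        by_contra hcon
        rcases lt_or_gt_of_ne hcon with hlt | hlt
        · obtain ⟨h2, h3⟩ := mrg_inj hab hrs hlt
          have h4 : ({r, s} : Finset ℕ) ⊆ (ρ v).filter (fun t => a u < t ∧ t < b u) := by
            intro t ht
            rw [mem_insert, mem_singleton] at ht
            rw [mem_filter]
            rcases ht with rfl | rfl
            · exact ⟨hr, h2, by omega⟩
            · exact ⟨hs, by omega, h3⟩
          have h5 := card_le_card h4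
          rw [card_pair hcon] at h5
          omega
        · obtain ⟨h2, h3⟩ := mrg_inj hab hrs.symm hlt
          have h4 : ({r, s} : Finset ℕ) ⊆ (ρ v).filter (fun t => a u < t ∧ t < b u) := by
            intro t ht
            rw [mem_insert, mem_singleton] at ht
            rw [mem_filter]
            rcases ht with rfl | rfl
            · exact ⟨hr, by omega, h3⟩
            · exact ⟨hs, h2, by omega⟩
          have h5 := card_le_card h4
          rw [card_pair hcon] at h5
          omega
      have hih := ih (T.erase u) (fun v => (ρ v).image (mrg (a u) (b u)))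
        (fun v => mrg (a u) (b u) (a v)) (fun v => mrg (a u) (b u) (b v)) (m - (b u - a u - 2)) hT0
        (by
          intro v hv
          rw [mem_erase] at hv
          obtain ⟨h1, h2, h3⟩ := hrow v hv.2
          refine ⟨mem_image_of_mem _ h1, mem_image_of_mem _ h2, ?_⟩
          intro r hr
          obtain ⟨s, hs, rfl⟩ := mem_image.1 hr
          obtain ⟨h4, h5, h6⟩ := h3 s hs
          exact ⟨mrg_mono hab h4, mrg_mono hab h5, mrg_bound hab hbm h6⟩)
        (by
          intro v hv w hw hvw hle
          rw [mem_erase] at hv hw
          have h1 := hthin v hv.2 w hw.2 hvw hle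
          refine le_trans ?_ h1
          have h2 : ((ρ w).image (mrg (a u) (b u))).filter
              (fun r => mrg (a u) (b u) (a v) < r ∧ r < mrg (a u) (b u) (b v)) ⊆
              ((ρ w).filter (fun r => a v < r ∧ r < b v)).image (mrg (a u) (b u)) := by
            intro r hr
            rw [mem_filter, mem_image] at hr
            obtain ⟨⟨s, hs, rfl⟩, h3, h4⟩ := hr
            refine mem_image_of_mem _ (mem_filter.2 ⟨hs, mrg_lt hab h3, mrg_lt hab h4⟩)
          exact (card_le_card h2).trans card_image_le)
      have hsum2 : ∑ v ∈ T.erase u, ((ρ v).image (mrg (a u) (b u))).card =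
          ∑ v ∈ T.erase u, (ρ v).card := by
        apply sum_congr rfl
        intro v hv
        exact card_image_of_injOn (hin v hv)
      rw [hsum2] at hih
      rw [hsum]
      omega
    · have hih := ih (T.erase u) ρ a b m hT0 (fun v hv => hrow v (mem_of_mem_erase hv))
        (fun v hv w hw => hthin v (mem_of_mem_erase hv) w (mem_of_mem_erase hw))
      rw [hsum]
      omega

/-- Colouring: an acyclic relation with out-degree at most `q` has a proper `q+1`-colouring. -/
theorem coloring {V α : Type*} [LinearOrder α] (h : V → α) (arc : V → V → Prop)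
    (harc : ∀ u v, arc u v → h u < h v) (q : ℕ) :
    ∀ (n : ℕ) (T : Finset V), T.card = n →
      (∀ u ∈ T, (T.filter (fun v => arc u v)).card ≤ q) →
      ∃ c : V → ℕ, (∀ u, c u < q + 1) ∧ ∀ u ∈ T, ∀ v ∈ T, arc u v → c u ≠ c v := by
  intro n
  induction n with
  | zero =>
    intro T hT _
    rw [card_eq_zero] at hT
    subst hT
    exact ⟨fun _ => 0, fun _ => Nat.succ_pos _, fun u hu => absurd hu (notMem_empty _)⟩
  | succ n ih =>
    intro T hT hdeg
    have hne : T.Nonempty := by
      rw [← card_pos, hT]; omega
    obtain ⟨u, hu, hmin⟩ := exists_min_image T h hne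
    have hT0 : (T.erase u).card = n := by rw [card_erase_of_mem hu, hT]; rfl
    obtain ⟨c, hc1, hc2⟩ := ih (T.erase u) hT0 (by
      intro v hv
      refine le_trans (card_le_card ?_) (hdeg v (mem_of_mem_erase hv))
      exact filter_subset_filter _ (erase_subset _ _))
    -- choose a free colour
    have hfree : ∃ x ∈ range (q + 1), x ∉ (T.filter (fun v => arc u v)).image c := by
      apply exists_mem_notMem_of_card_lt_card
      rw [card_range]
      have := hdeg u hu
      exact lt_of_le_of_lt card_image_le (by omega)
    obtain ⟨x, hx1, hx2⟩ := hfree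
    rw [mem_range] at hx1
    refine ⟨fun v => if v = u then x else c v, ?_, ?_⟩
    · intro v
      show (if v = u then x else c v) < q + 1
      split_ifs
      · exact hx1
      · exact hc1 v
    · intro v hv w hw hvw
      show (if v = u then x else c v) ≠ (if w = u then x else c w)
      have hlt := harc v w hvw
      by_cases hwu : w = u
      · subst hwu
        exact absurd hlt (not_lt.2 (hmin v hv))
      by_cases hvu : v = u
      · subst hvu
        rw [if_pos rfl, if_neg hwu]
        intro heq
        apply hx2
        rw [heq]
        exact mem_image_of_mem _ (mem_filter.2 ⟨hw, hvw⟩)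
      · rw [if_neg hvu, if_neg hwu]
        exact hc2 v (mem_erase.2 ⟨hvu, hv⟩) w (mem_erase.2 ⟨hwu, hw⟩) hvw

/-- greedy marks -/
theorem exists_marks (C : ℕ → ℕ → Prop)
    (hmono : ∀ a a' b b', C a b → a' ≤ a → b ≤ b' → C a' b') (hirr : ∀ a, ¬ C a a)
    (T : Finset ℕ) :
    ∃ p : ℕ → ℕ, (∀ r ∈ T, p r ∈ T ∧ p r ≤ r ∧ p (p r) = p r ∧ ¬ C (p r) r) ∧
      (∀ r ∈ T, ∀ r' ∈ T, p r < p r' → C (p r) (p r')) ∧
      (∀ r ∈ T, ∀ r' ∈ T, r ≤ r' → p r ≤ p r') := by
  induction T using Finset.induction_on_max with
  | empty =>
    exact ⟨id, fun r hr => absurd hr (notMem_empty _), fun r hr => absurd hr (notMem_empty _),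
      fun r hr => absurd hr (notMem_empty _)⟩
  | insert a T hmax ih =>
    obtain ⟨p, h1, h2, h3⟩ := ih
    have haT : a ∉ T := fun h => lt_irrefl _ (hmax a h)
    by_cases hT : T.Nonempty
    · set b := T.max' hT with hb
      have hbT : b ∈ T := T.max'_mem hT
      have hbmax : ∀ r ∈ T, r ≤ b := fun r hr => T.le_max' r hr
      by_cases hC : C (p b) a
      · refine ⟨fun r => if r = a then a else p r, ?_, ?_, ?_⟩
        · intro r hr
          rw [mem_insert] at hr
          by_cases hra : r = a
          · subst hra
            simp only [if_true]
            exact ⟨mem_insert_self _ _, le_refl _, trivial, hirr _⟩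
          · have hrT : r ∈ T := hr.resolve_left hra
            obtain ⟨q1, q2, q3, q4⟩ := h1 r hrT
            have hpa : p r ≠ a := fun h => haT (h ▸ q1)
            simp only [if_neg hra, if_neg hpa]
            exact ⟨mem_insert_of_mem q1, q2, q3, q4⟩
        · intro r hr r' hr' hlt
          rw [mem_insert] at hr hr'
          by_cases hra : r = a
          · subst hra
            simp only [if_true] at hlt
            by_cases hra' : r' = r
            · subst hra'; simp at hlt
            · rw [if_neg hra'] at hlt
              have hrT' : r' ∈ T := hr'.resolve_left hra'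
              have := (h1 r' hrT').2.1
              have := hmax r' hrT'
              omega
          · have hrT : r ∈ T := hr.resolve_left hra
            simp only [if_neg hra] at hlt ⊢
            by_cases hra' : r' = a
            · simp only [if_pos hra']
              exact hmono _ _ _ _ hC (h3 r hrT b hbT (hbmax r hrT)) (le_refl _)
            · simp only [if_neg hra'] at hlt ⊢
              exact h2 r hrT r' (hr'.resolve_left hra') hlt
        · intro r hr r' hr' hle
          rw [mem_insert] at hr hr'
          by_cases hra : r = a
          · subst hra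
            by_cases hra' : r' = r
            · subst hra'; exact le_refl _
            · have hrT' : r' ∈ T := hr'.resolve_left hra'
              have := hmax r' hrT'
              omega
          · have hrT : r ∈ T := hr.resolve_left hra
            by_cases hra' : r' = a
            · simp only [if_neg hra, if_pos hra']
              exact (h1 r hrT).2.1.trans (hmax r hrT).le
            · simp only [if_neg hra, if_neg hra']
              exact h3 r hrT r' (hr'.resolve_left hra') hle
      · have hpb : p b ≠ a := fun h => haT (h ▸ (h1 b hbT).1)
        refine ⟨fun r => if r = a then p b else p r, ?_, ?_, ?_⟩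
        · intro r hr
          rw [mem_insert] at hr
          by_cases hra : r = a
          · subst hra
            simp only [if_true, if_neg hpb]
            exact ⟨mem_insert_of_mem (h1 b hbT).1, (h1 b hbT).2.1.trans (hmax b hbT).le,
              (h1 b hbT).2.2.1, hC⟩
          · have hrT : r ∈ T := hr.resolve_left hra
            obtain ⟨q1, q2, q3, q4⟩ := h1 r hrT
            have hpa : p r ≠ a := fun h => haT (h ▸ q1)
            simp only [if_neg hra, if_neg hpa]
            exact ⟨mem_insert_of_mem q1, q2, q3, q4⟩
        · intro r hr r' hr' hlt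
          rw [mem_insert] at hr hr'
          by_cases hra : r = a
          · simp only [if_pos hra] at hlt ⊢
            by_cases hra' : r' = a
            · simp only [if_pos hra'] at hlt
              exact absurd hlt (lt_irrefl _)
            · simp only [if_neg hra'] at hlt ⊢
              exact h2 b hbT r' (hr'.resolve_left hra') hlt
          · have hrT : r ∈ T := hr.resolve_left hra
            simp only [if_neg hra] at hlt ⊢
            by_cases hra' : r' = a
            · simp only [if_pos hra'] at hlt ⊢
              exact h2 r hrT b hbT hlt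
            · simp only [if_neg hra'] at hlt ⊢
              exact h2 r hrT r' (hr'.resolve_left hra') hlt
        · intro r hr r' hr' hle
          rw [mem_insert] at hr hr'
          by_cases hra : r = a
          · by_cases hra' : r' = a
            · simp only [if_pos hra, if_pos hra']
              exact le_refl _
            · have hrT' : r' ∈ T := hr'.resolve_left hra'
              have := hmax r' hrT'
              omega
          · have hrT : r ∈ T := hr.resolve_left hra
            by_cases hra' : r' = a
            · simp only [if_neg hra, if_pos hra']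
              exact h3 r hrT b hbT (hbmax r hrT)
            · simp only [if_neg hra, if_neg hra']
              exact h3 r hrT r' (hr'.resolve_left hra') hle
    · rw [not_nonempty_iff_eq_empty] at hT
      subst hT
      refine ⟨id, ?_, ?_, ?_⟩
      · intro r hr
        exact ⟨hr, le_refl _, rfl, hirr _⟩
      · intro r hr r' hr' hlt
        rw [mem_insert] at hr hr'
        have e1 : r = a := hr.resolve_right (notMem_empty _)
        have e2 : r' = a := hr'.resolve_right (notMem_empty _)
        subst e1; subst e2
        exact absurd hlt (lt_irrefl _)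
      · intro r _ r' _ hle
        exact hle

end Pool.Agent.CycShift
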